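import Pool.Agent.Q233.WC.Main

/-!
# Bounded boundaries: a sequence of disjoint boundaries; lower bounds for weak boundaries
-/

set_option autoImplicit false

open MeasureTheory ProbabilityTheory Filter Topology Pool.Agent.TH761.EB
open scoped ENNReal

namespace Pool.Agent.Q233.WC

variable {X E : Type} {a b : E → X} {R : Set X}

lemma cut_finite (hfib : ∀ x, {e | a e = x ∨ b e = x}.Finite) (B : Finset X) :
    (cut a b R B).Finite := by
  refine (B.finite_toSet.biUnion fun x _ => hfib x).subset fun e he => ?_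
  rcases he with h | h
  · exact Set.mem_biUnion h.1 (Or.inl rfl)
  · exact Set.mem_biUnion h.1 (Or.inr rfl)

/-- all bonds of `C` are weak with the product probability -/
lemma wt_ge (μ : E → Measure ℝ) [∀ e, IsProbabilityMeasure (μ e)] (C : Finset E) {δ η : ℝ}
    (h : (C.card : ℝ) * η ≤ δ) :
    ∏ e ∈ C, μ e (Set.Icc (-η) η) ≤ PP μ {J | wt C J ≤ δ} := by
  unfold PP
  rw [← Measure.infinitePi_pi μ (s := C) (t := fun _ => Set.Icc (-η) η)
    (fun e _ => measurableSet_Icc)]
  refine measure_mono fun J hJ => ?_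
  rw [Set.mem_pi] at hJ
  refine le_trans ?_ h
  unfold wt
  calc ∑ e ∈ C, |J e| ≤ ∑ _e ∈ C, η := Finset.sum_le_sum fun e he => abs_le.2 (hJ e (by exact_mod_cast he))
    _ = C.card * η := by rw [Finset.sum_const, nsmul_eq_mul]

/-- from enclosing sets with bounded boundaries to a sequence with disjoint boundaries -/
theorem exists_seq [Countable X] (hfib : ∀ x, {e | a e = x ∨ b e = x}.Finite)
    (hinf : R.Infinite) {m : ℕ}
    (hm : ∀ F : Finset X, (F : Set X) ⊆ R → ∃ B : Finset X, (B : Set X) ⊆ R ∧ F ⊆ B ∧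
      (cut a b R B).ncard ≤ m) :
    ∃ (B : ℕ → Finset X) (C : ℕ → Finset E), (∀ k, (B k : Set X) ⊆ R) ∧
      (∀ x ∈ R, ∀ᶠ k in atTop, x ∈ B k) ∧ (∀ k, (C k : Set E) = cut a b R (B k)) ∧
      Pairwise (Function.onFun Disjoint C) ∧ ∀ k, (C k).card ≤ m := by
  classical
  haveI : Nonempty X := ⟨hinf.nonempty.some⟩
  obtain ⟨f, hf⟩ := exists_surjective_nat X
  have hm2 : ∀ F : Finset X, ∃ B : Finset X, (B : Set X) ⊆ R ∧ F.filter (· ∈ R) ⊆ B ∧
      (cut a b R B).ncard ≤ m := fun F => hm _ (fun x hx => by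
        rw [Finset.mem_coe, Finset.mem_filter] at hx
        exact hx.2)
  choose G hG1 hG2 hG3 using hm2
  set cf : Finset X → Finset E := fun B => (cut_finite (R := R) hfib B).toFinset with hcf
  set nx : ℕ → Finset X → Finset X := fun n B =>
    G (B ∪ ((cf B).image a ∪ ((cf B).image b ∪ {f n}))) with hnx
  set B : ℕ → Finset X := fun n => Nat.rec (G ∅) (fun n B => nx n B) n with hB
  have hBs : ∀ n, B (n + 1) = nx n (B n) := fun n => rfl
  have hBR : ∀ k, (B k : Set X) ⊆ R := by
    intro k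
    cases k with
    | zero => exact hG1 ∅
    | succ n => rw [hBs]; exact hG1 _
  have hBc : ∀ k, (cut a b R (B k)).ncard ≤ m := by
    intro k
    cases k with
    | zero => exact hG3 ∅
    | succ n => rw [hBs]; exact hG3 _
  have hstep : ∀ n x, x ∈ R → (x ∈ B n ∨ x ∈ (cf (B n)).image a ∨ x ∈ (cf (B n)).image b ∨
      x = f n) → x ∈ B (n + 1) := by
    intro n x hx h
    rw [hBs]
    apply hG2
    rw [Finset.mem_filter]
    refine ⟨?_, hx⟩
    simp only [Finset.mem_union, Finset.mem_singleton]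
    exact h
  have hmono : Monotone B := monotone_nat_of_le_succ fun n x hx =>
    hstep n x (hBR n hx) (Or.inl hx)
  have hmem : ∀ k e, e ∈ cf (B k) ↔ e ∈ cut a b R (B k) := by
    intro k e
    simp [hcf]
  refine ⟨B, fun k => cf (B k), hBR, ?_, ?_, ?_, ?_⟩
  · intro x hx
    obtain ⟨n, rfl⟩ := hf x
    filter_upwards [eventually_ge_atTop (n + 1)] with k hk
    exact hmono hk (hstep n _ hx (Or.inr (Or.inr (Or.inr rfl))))
  · intro k
    ext e
    rw [Finset.mem_coe]
    exact hmem k e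
  · have hlt : ∀ j k, j < k → Disjoint (cf (B j)) (cf (B k)) := by
      intro j k hjk
      rw [Finset.disjoint_left]
      intro e he he2
      have h1 := (hmem j e).1 he
      have h2 := (hmem k e).1 he2
      have hR : a e ∈ R ∧ b e ∈ R := by
        rcases h1 with h3 | h3
        · exact ⟨hBR j h3.1, h3.2.1⟩
        · exact ⟨h3.2.1, hBR j h3.1⟩
      have ha : a e ∈ B k := hmono (Nat.succ_le_of_lt hjk)
        (hstep j _ hR.1 (Or.inr (Or.inl (Finset.mem_image_of_mem a he))))
      have hb : b e ∈ B k := hmono (Nat.succ_le_of_lt hjk)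
        (hstep j _ hR.2 (Or.inr (Or.inr (Or.inl (Finset.mem_image_of_mem b he)))))
      rcases h2 with h3 | h3
      · exact h3.2.2 hb
      · exact h3.2.2 ha
    intro j k hjk
    rcases lt_or_gt_of_ne hjk with h | h
    · exact hlt j k h
    · exact (hlt k j h).symm
  · intro k
    have h := hBc k
    rwa [Set.ncard_eq_toFinset_card _ (cut_finite hfib (B k))] at h

/-- **bounded boundaries**: uniqueness when the law charges every neighbourhood of `0` -/
theorem bounded_cuts [Countable X] [Countable E] (hfib : ∀ x, {e | a e = x ∨ b e = x}.Finite)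
    (hinf : R.Infinite)
    (hconn : ∀ S : Set X, S ⊆ R → S.Nonempty → (R \ S).Nonempty → (cut a b R S).Nonempty) {m : ℕ}
    (hm : ∀ F : Finset X, (F : Set X) ⊆ R → ∃ B : Finset X, (B : Set X) ⊆ R ∧ F ⊆ B ∧
      (cut a b R B).ncard ≤ m)
    (ν : Measure ℝ) [IsProbabilityMeasure ν] (hat : ∀ x, ν {x} = 0)
    (h0 : ∀ δ : ℝ, 0 < δ → 0 < ν (Set.Icc (-δ) δ)) :
    ∀ᵐ J ∂(PP fun _ : E => ν), ∃ σ, {ρ | GS a b R J ρ} = {σ, -σ} := by
  obtain ⟨B, C, hBR, hex, hC, hd, hcard⟩ := exists_seq (R := R) hfib hinf hm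
  refine pair_ae (fun _ : E => ν) (fun _ => hat) hfib hinf hconn hBR hex hC hd fun δ hδ => ?_
  set η : ℝ := δ / (m + 1) with hη
  have hη0 : 0 < η := by positivity
  set p := ν (Set.Icc (-η) η) with hp
  have hp1 : p ≤ 1 := prob_le_one
  have h1 : ∀ k, p ^ m ≤ PP (fun _ : E => ν) {J | wt (C k) J ≤ δ} := by
    intro k
    have h2 := wt_ge (fun _ : E => ν) (C k) (δ := δ) (η := η) (by
      have h3 : ((C k).card : ℝ) ≤ m := by exact_mod_cast hcard k
      calc ((C k).card : ℝ) * η ≤ (m + 1) * η := by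
            apply mul_le_mul_of_nonneg_right _ hη0.le
            linarith
        _ = δ := by rw [hη]; field_simp)
    rw [Finset.prod_const] at h2
    refine le_trans ?_ h2
    exact pow_le_pow_right_of_le_one' hp1 (hcard k)
  rw [eq_top_iff]
  calc (∞ : ℝ≥0∞) = ∑' _ : ℕ, p ^ m :=
        (ENNReal.tsum_const_eq_top_of_ne_zero (pow_ne_zero _ (h0 η hη0).ne')).symm
    _ ≤ _ := ENNReal.tsum_le_tsum h1

end Pool.Agent.Q233.WC
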