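import Mathlib

/-!
# Independent couplings: resampling, small balls, genericity, independence of disjoint blocks
-/

set_option autoImplicit false

open MeasureTheory ProbabilityTheory Filter Topology Set
open scoped ENNReal

namespace Pool.Agent.Q233.WC

variable {E : Type} (μ : E → Measure ℝ) [∀ e, IsProbabilityMeasure (μ e)]

/-- the law of independent couplings -/
noncomputable def PP : Measure (E → ℝ) := Measure.infinitePi μ

instance : IsProbabilityMeasure (PP μ) := by unfold PP; infer_instance

theorem meas_up [DecidableEq E] (x : E) :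
    Measurable fun p : (E → ℝ) × ℝ => Function.update p.1 x p.2 := by
  rw [measurable_pi_iff]
  intro i
  by_cases h : i = x
  · subst h
    simp only [Function.update_self]
    exact measurable_snd
  · simp only [Function.update_of_ne h]
    exact (measurable_pi_apply i).comp measurable_fst

theorem mp_up [DecidableEq E] (x : E) :
    MeasurePreserving (fun p : (E → ℝ) × ℝ => Function.update p.1 x p.2)
      ((PP μ).prod (μ x)) (PP μ) := by
  refine ⟨meas_up x, ?_⟩
  unfold PP
  apply Measure.eq_infinitePi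
  intro s t ht
  rw [Measure.map_apply (meas_up x)]
  swap
  · exact MeasurableSet.pi (Finset.countable_toSet s) (fun i _ => ht i)
  have hpre : (fun p : (E → ℝ) × ℝ => Function.update p.1 x p.2) ⁻¹' ((s : Set E).pi t) =
      (((s.erase x : Finset E) : Set E).pi t) ×ˢ (if x ∈ s then t x else Set.univ) := by
    ext p
    simp only [Set.mem_preimage, Set.mem_pi, Finset.mem_coe, Set.mem_prod, Finset.mem_erase]
    constructor
    · intro h
      refine ⟨?_, ?_⟩
      · intro i hi
        have := h i hi.2
        rwa [Function.update_of_ne hi.1] at this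
      · split_ifs with h0
        · have := h x h0
          rwa [Function.update_self] at this
        · trivial
    · rintro ⟨h1, h2⟩ i hi
      by_cases h0 : i = x
      · subst h0
        rw [Function.update_self]
        rwa [if_pos hi] at h2
      · rw [Function.update_of_ne h0]
        exact h1 i ⟨h0, hi⟩
  rw [hpre, Measure.prod_prod]
  rw [Measure.infinitePi_pi μ (fun i _ => ht i)]
  by_cases h0 : x ∈ s
  · rw [if_pos h0, Finset.prod_erase_mul s (fun i => μ i (t i)) h0]
  · rw [if_neg h0, measure_univ, mul_one, Finset.erase_eq_of_notMem h0]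

/-- small balls of a law without atoms have small mass, uniformly in the centre -/
theorem small_ball (ν : Measure ℝ) [IsProbabilityMeasure ν] (hat : ∀ x, ν {x} = 0) {ε : ℝ≥0∞}
    (hε : 0 < ε) : ∃ δ : ℝ, 0 < δ ∧ ∀ t, ν (Icc (t - δ) (t + δ)) ≤ ε := by
  have h1 : ∀ x : ℝ, ∃ r : ℝ, 0 < r ∧ ν (Icc (x - r) (x + r)) < ε := by
    intro x
    have h := tendsto_measure_biInter_gt (μ := ν) (s := fun r : ℝ => Icc (x - r) (x + r)) (a := 0)
      (fun r _ => measurableSet_Icc.nullMeasurableSet)
      (fun i j _ hij => Icc_subset_Icc (by linarith) (by linarith))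
      ⟨1, by norm_num, measure_ne_top _ _⟩
    have e : (⋂ r > (0 : ℝ), Icc (x - r) (x + r)) = {x} := by
      ext y
      simp only [mem_iInter, mem_Icc, mem_singleton_iff]
      constructor
      · intro hy
        by_contra hne
        have hp : 0 < |y - x| := abs_pos.2 (sub_ne_zero.2 hne)
        have h2 := hy (|y - x| / 2) (by positivity)
        rcases abs_cases (y - x) with ⟨h3, _⟩ | ⟨h3, _⟩ <;> rw [h3] at h2 hp <;>
          linarith [h2.1, h2.2]
      · rintro rfl r hr
        constructor <;> linarith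
    rw [e, hat x] at h
    have h2 : ∀ᶠ r in 𝓝[>] (0 : ℝ), ν (Icc (x - r) (x + r)) < ε :=
      h.eventually (gt_mem_nhds hε)
    obtain ⟨r, hr, hr0⟩ := (h2.and self_mem_nhdsWithin).exists
    exact ⟨r, hr0, hr⟩
  choose r hr0 hr using h1
  have htop : Tendsto (fun R : ℝ => ν (Ici R)) atTop (𝓝 0) := by
    have h : Tendsto (fun x => ν (Ici x)) atTop (𝓝 (ν (⋂ x : ℝ, Ici x))) :=
      tendsto_measure_iInter_atTop (fun x => measurableSet_Ici.nullMeasurableSet)
        (fun _ _ h => Ici_subset_Ici.2 h) ⟨0, measure_ne_top _ _⟩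
    have e : (⋂ x : ℝ, Ici x) = ∅ := by
      ext y
      simp only [mem_iInter, mem_Ici, mem_empty_iff_false, iff_false, not_forall, not_le]
      exact ⟨y + 1, by linarith⟩
    rwa [e, measure_empty] at h
  have hbot : Tendsto (fun R : ℝ => ν (Iic (-R))) atTop (𝓝 0) := by
    have h : Tendsto (fun x : ℝ => ν (Iic (-x))) atTop (𝓝 (ν (⋂ x : ℝ, Iic (-x)))) :=
      tendsto_measure_iInter_atTop (fun x => measurableSet_Iic.nullMeasurableSet)
        (fun _ _ h => Iic_subset_Iic.2 (neg_le_neg h)) ⟨0, measure_ne_top _ _⟩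
    have e : (⋂ x : ℝ, Iic (-x)) = ∅ := by
      ext y
      simp only [mem_iInter, mem_Iic, mem_empty_iff_false, iff_false, not_forall, not_le]
      exact ⟨-y + 1, by linarith⟩
    rwa [e, measure_empty] at h
  obtain ⟨R, ⟨hR1, hR2⟩, hR0⟩ := (((htop.eventually (gt_mem_nhds hε)).and
    (hbot.eventually (gt_mem_nhds hε))).and (eventually_ge_atTop 0)).exists
  obtain ⟨δ, hδ, hc⟩ := lebesgue_number_lemma_of_metric (s := Icc (-(R + 1)) (R + 1))
    (c := fun x : ℝ => Metric.ball x (r x)) isCompact_Icc (fun x => Metric.isOpen_ball)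
    (fun x _ => mem_iUnion.2 ⟨x, Metric.mem_ball_self (hr0 x)⟩)
  refine ⟨min (δ / 2) 1, by positivity, fun t => ?_⟩
  have hm1 : min (δ / 2) 1 ≤ δ / 2 := min_le_left _ _
  have hm2 : min (δ / 2) 1 ≤ 1 := min_le_right _ _
  by_cases ht : t ∈ Icc (-(R + 1)) (R + 1)
  · obtain ⟨x, hx⟩ := hc t ht
    refine le_trans (measure_mono ?_) (hr x).le
    intro y hy
    have h2 : y ∈ Metric.ball t δ := by
      rw [Metric.mem_ball, Real.dist_eq, abs_lt]
      constructor <;> linarith [hy.1, hy.2]
    have h3 := hx h2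
    rw [Metric.mem_ball, Real.dist_eq, abs_lt] at h3
    exact ⟨by linarith [h3.1], by linarith [h3.2]⟩
  · rw [mem_Icc, not_and_or, not_le, not_le] at ht
    rcases ht with ht | ht
    · refine le_trans (measure_mono ?_) hR2.le
      intro y hy
      rw [mem_Iic]
      linarith [hy.2]
    · refine le_trans (measure_mono ?_) hR1.le
      intro y hy
      rw [mem_Ici]
      linarith [hy.1]

lemma lin_null (hat : ∀ e x, μ e {x} = 0) (T : Finset E) (k : E → ℝ) {e0 : E}
    (he0 : e0 ∈ T) (hk : k e0 ≠ 0) :
    (PP μ) {J : E → ℝ | ∑ e ∈ T, J e * k e = 0} = 0 := by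
  classical
  have hms : MeasurableSet {J : E → ℝ | ∑ e ∈ T, J e * k e = 0} :=
    measurableSet_eq_fun (by fun_prop) measurable_const
  rw [← (mp_up μ e0).measure_preimage hms.nullMeasurableSet]
  rw [Measure.prod_apply ((meas_up e0) hms)]
  rw [lintegral_eq_zero_iff (measurable_measure_prodMk_left ((meas_up e0) hms))]
  refine Filter.Eventually.of_forall fun J => ?_
  refine measure_mono_null (t := {-(∑ e ∈ T.erase e0, J e * k e) / k e0}) ?_ (hat e0 _)
  intro v hv
  simp only [Set.mem_preimage, Set.mem_ofPred_eq] at hv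
  rw [← Finset.sum_erase_add _ _ he0, Function.update_self] at hv
  have h2 : ∑ e ∈ T.erase e0, (Function.update J e0 v) e * k e = ∑ e ∈ T.erase e0, J e * k e := by
    refine Finset.sum_congr rfl fun e he => ?_
    rw [Function.update_of_ne (Finset.ne_of_mem_erase he)]
  rw [h2] at hv
  rw [mem_singleton_iff, eq_div_iff hk]
  linarith

/-- genericity -/
lemma gen_ae (hat : ∀ e x, μ e {x} = 0) [Countable E] :
    ∀ᵐ J ∂(PP μ), ∀ T1 T2 : Finset E, Disjoint T1 T2 →
      (∃ e, e ∈ T1 ∨ e ∈ T2) → ∑ e ∈ T1, J e ≠ ∑ e ∈ T2, J e := by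
  classical
  rw [ae_all_iff]; intro T1
  rw [ae_all_iff]; intro T2
  by_cases hd : Disjoint T1 T2
  · by_cases he : ∃ e, e ∈ T1 ∨ e ∈ T2
    · obtain ⟨e0, he0⟩ := he
      have h1 := lin_null μ hat (T1 ∪ T2) (fun e => if e ∈ T1 then 1 else -1) (e0 := e0)
        (Finset.mem_union.2 he0) (by split_ifs <;> norm_num)
      rw [ae_iff]
      refine measure_mono_null ?_ h1
      intro J hJ
      simp only [Set.mem_ofPred_eq, Classical.not_imp, ne_eq, not_not] at hJ ⊢
      have h2 := hJ.2.2
      rw [Finset.sum_union hd]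
      have h3 : ∑ e ∈ T1, J e * (if e ∈ T1 then (1 : ℝ) else -1) = ∑ e ∈ T1, J e :=
        Finset.sum_congr rfl fun e he => by rw [if_pos he, mul_one]
      have h4 : ∑ e ∈ T2, J e * (if e ∈ T1 then (1 : ℝ) else -1) = -∑ e ∈ T2, J e := by
        rw [← Finset.sum_neg_distrib]
        refine Finset.sum_congr rfl fun e he => ?_
        rw [if_neg (fun h => (Finset.disjoint_left.1 hd) h he), mul_neg, mul_one]
      rw [h3, h4, h2]; ring
    · exact Filter.Eventually.of_forall fun J _ hex => absurd hex he
  · exact Filter.Eventually.of_forall fun J hex => absurd hex hd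

/-- the coordinates are independent -/
lemma coord_indep : iIndepFun (fun (e : E) (J : E → ℝ) => J e) (PP μ) := by
  have h := iIndepFun_infinitePi (P := μ) (X := fun _ (x : ℝ) => x) (fun e => measurable_id)
  exact h

/-- the sum of the absolute values over a finite set of bonds -/
noncomputable def wt (C : Finset E) (J : E → ℝ) : ℝ := ∑ e ∈ C, |J e|

lemma wt_meas (C : Finset E) : Measurable (wt C : (E → ℝ) → ℝ) := by
  unfold wt
  fun_prop

lemma wt_set (C : Finset E) (δ : ℝ) : MeasurableSet {J : E → ℝ | wt C J ≤ δ} :=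
  measurableSet_le (wt_meas C) measurable_const

/-- the events `wt (C k) ≤ δ` are independent when the `C k` are disjoint -/
lemma indep_wt {C : ℕ → Finset E} (hC : Pairwise (Function.onFun Disjoint C)) (δ : ℝ) :
    iIndepSet (fun k => {J : E → ℝ | wt (C k) J ≤ δ}) (PP μ) := by
  classical
  rw [iIndepSet_iff_meas_biInter (fun k => wt_set (C k) δ)]
  intro s
  induction s using Finset.induction_on with
  | empty => simp
  | insert k s hk ih =>
    rw [Finset.set_biInter_insert, Finset.prod_insert hk, ← ih]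
    have h1 : Disjoint (C k) (s.biUnion C) := by
      rw [Finset.disjoint_biUnion_right]
      intro j hj
      exact hC (fun h => hk (h ▸ hj))
    have h2 := (coord_indep μ).indepFun_finset (C k) (s.biUnion C) h1
      (fun e => measurable_pi_apply e)
    set f : ((C k) → ℝ) → ℝ := fun y => ∑ e, |y e| with hf
    have hfm : Measurable f := by simp only [hf]; fun_prop
    set A : Set ({e // e ∈ s.biUnion C} → ℝ) :=
      ⋂ j ∈ s, {y | ∑ e : {e // e ∈ s.biUnion C}, (if (e : E) ∈ C j then |y e| else 0) ≤ δ} with hA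
    have hAm : MeasurableSet A := by
      refine Finset.measurableSet_biInter s fun j _ => ?_
      refine measurableSet_le (Finset.measurable_sum _ fun e _ => ?_) measurable_const
      split_ifs
      · fun_prop
      · exact measurable_const
    have h3 := h2.measure_inter_preimage_eq_mul (f ⁻¹' Iic δ) A (hfm measurableSet_Iic) hAm
    have e1 : (fun (a : E → ℝ) (i : (C k)) => a i) ⁻¹' (f ⁻¹' Iic δ) =
        {J : E → ℝ | wt (C k) J ≤ δ} := by
      ext J
      simp only [mem_preimage, mem_Iic, hf, mem_ofPred_eq, wt]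
      rw [Finset.sum_coe_sort (C k) (fun e => |J e|)]
    have e2 : (fun (a : E → ℝ) (i : (s.biUnion C : Finset E)) => a i) ⁻¹' A =
        ⋂ j ∈ s, {J : E → ℝ | wt (C j) J ≤ δ} := by
      ext J
      simp only [hA, mem_preimage, mem_iInter, mem_ofPred_eq, wt]
      refine forall_congr' fun j => forall_congr' fun hj => ?_
      rw [Finset.sum_coe_sort (s.biUnion C) (fun e => if e ∈ C j then |J e| else 0),
        ← Finset.sum_filter]
      have e3 : (s.biUnion C).filter (fun e => e ∈ C j) = C j := by
        ext e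
        simp only [Finset.mem_filter, Finset.mem_biUnion]
        exact ⟨fun h => h.2, fun h => ⟨⟨j, hj, h⟩, h⟩⟩
      rw [e3]
    rw [e1, e2] at h3
    exact h3

/-- infinitely many of the sets `C k` have total strength at most `δ` -/
theorem often {C : ℕ → Finset E} (hC : Pairwise (Function.onFun Disjoint C)) {δ : ℝ}
    (h : ∑' k, (PP μ) {J | wt (C k) J ≤ δ} = ∞) (k0 : ℕ) :
    ∀ᵐ J ∂(PP μ), ∃ k, k0 ≤ k ∧ wt (C k) J ≤ δ := by
  have h1 := measure_limsup_eq_one (fun k => wt_set (C k) δ) (indep_wt μ hC δ) h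
  have hm : MeasurableSet (limsup (fun k => {J : E → ℝ | wt (C k) J ≤ δ}) atTop) :=
    MeasurableSet.measurableSet_limsup fun k => wt_set (C k) δ
  have h2 := (mem_ae_iff_prob_eq_one (μ := PP μ) hm).2 h1
  filter_upwards [h2] with J hJ
  rw [mem_limsup_iff_frequently_mem] at hJ
  obtain ⟨k, hk, h3⟩ := (hJ.and_eventually (eventually_ge_atTop k0)).exists
  exact ⟨k, h3, hk⟩

end Pool.Agent.Q233.WC
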