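import Pool.Agent.TH761.EB.Gen
import Pool.Agent.Q233.WC.Res

/-!
# Two ground states which disagree on a bond: the coupling of the bond is almost determined

If a finite set of sites `B` has boundary bonds of total strength at most `w`, then two ground states
disagree on a bond `e0` inside `B` only if the coupling of `e0` is within `w` of a function of the
other couplings inside `B`.
-/

set_option autoImplicit false

open MeasureTheory Filter Topology Pool.Agent.TH761.EB
open scoped ENNReal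

namespace Pool.Agent.Q233.WC

variable {X E : Type} {a b : E → X} {R : Set X}

/-- the bonds of the region with exactly one end in `S` -/
def cut (a b : E → X) (R S : Set X) : Set E :=
  {e | (a e ∈ S ∧ b e ∈ R \ S) ∨ (b e ∈ S ∧ a e ∈ R \ S)}

/-- the configuration which is `-1` on `A` and `1` off `A` -/
noncomputable def sA (A : Finset X) (x : X) : ℝ := open Classical in if x ∈ A then -1 else 1

lemma sA_pm (A : Finset X) (x : X) : sA A x = 1 ∨ sA A x = -1 := by
  unfold sA
  split_ifs <;> simp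

lemma key1 {J : E → ℝ} {σ : X → ℝ} (h : GS a b R J σ) {B : Finset X} (hB : (B : Set X) ⊆ R)
    {C I : Finset E} (hC : (C : Set E) = cut a b R B) (hI : ∀ e, e ∈ I ↔ a e ∈ B ∧ b e ∈ B)
    {s : X → ℝ} (hs : ∀ x, s x = 1 ∨ s x = -1) :
    ∑ e ∈ I, J e * (s (a e) * s (b e)) ≤
      ∑ e ∈ I, J e * (σ (a e) * σ (b e)) + 2 * wt C J := by
  classical
  have hw : 0 ≤ wt C J := Finset.sum_nonneg fun e _ => abs_nonneg _
  set ρ : X → ℝ := fun x => if x ∈ B then s x else σ x with hρ
  have hρB : ∀ x ∈ B, ρ x = s x := fun x hx => by simp only [hρ, hx, if_true]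
  have hρo : ∀ x, x ∉ B → ρ x = σ x := fun x hx => by simp only [hρ, hx, if_false]
  have hcf : Cf R ρ := by
    refine ⟨fun x hx => ?_, fun x hx => ?_⟩
    · by_cases h1 : x ∈ B
      · rw [hρB x h1]; exact hs x
      · rw [hρo x h1]; exact h.1.1 x hx
    · rw [hρo x (fun h1 => hx (hB h1))]
      exact h.1.2 x hx
  by_cases hne : ρ = σ
  · have h1 : ∑ e ∈ I, J e * (s (a e) * s (b e)) = ∑ e ∈ I, J e * (σ (a e) * σ (b e)) := by
      refine Finset.sum_congr rfl fun e he => ?_
      have h2 := (hI e).1 he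
      rw [← hρB _ h2.1, ← hρB _ h2.2, hne]
    linarith
  · have h1 := h.2 ρ hcf (B.finite_toSet.subset fun x hx => by
      by_contra hc
      exact hx (hρo x hc)) hne
    have hmem : ∀ e, e ∈ C ↔ (a e ∈ B ∧ b e ∈ R ∧ b e ∉ B) ∨ (b e ∈ B ∧ a e ∈ R ∧ a e ∉ B) := by
      intro e
      have h2 : e ∈ C ↔ e ∈ cut a b R B := by rw [← hC]; simp
      rw [h2]
      simp [cut]
    have hd : Disjoint I C := by
      rw [Finset.disjoint_left]
      intro e he he2
      have h2 := (hI e).1 he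
      rcases (hmem e).1 he2 with h3 | h3
      · exact h3.2.2 h2.2
      · exact h3.2.2 h2.1
    have hfs : ∑ᶠ e, J e * (σ (a e) * σ (b e) - ρ (a e) * ρ (b e)) =
        ∑ e ∈ I ∪ C, J e * (σ (a e) * σ (b e) - ρ (a e) * ρ (b e)) := by
      apply finsum_eq_sum_of_support_subset
      intro e he
      by_contra hc2
      apply he
      rw [Finset.coe_union, Set.mem_union, not_or, Finset.mem_coe, Finset.mem_coe] at hc2
      have hz : ∀ x, x ∉ R → ρ x = 0 ∧ σ x = 0 := fun x hx => ⟨hcf.2 x hx, h.1.2 x hx⟩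
      by_cases h2 : a e ∈ B
      · by_cases h3 : b e ∈ B
        · exact absurd ((hI e).2 ⟨h2, h3⟩) hc2.1
        · have h4 : b e ∉ R := fun h5 => hc2.2 ((hmem e).2 (Or.inl ⟨h2, h5, h3⟩))
          simp only [(hz _ h4).1, (hz _ h4).2]
          ring
      · by_cases h3 : b e ∈ B
        · have h4 : a e ∉ R := fun h5 => hc2.2 ((hmem e).2 (Or.inr ⟨h3, h5, h2⟩))
          simp only [(hz _ h4).1, (hz _ h4).2]
          ring
        · simp only [hρo _ h2, hρo _ h3, sub_self, mul_zero]
    rw [hfs, Finset.sum_union hd] at h1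
    have hb1 : ∀ f : X → ℝ, Cf R f → ∀ x, |f x| ≤ 1 := by
      intro f hf x
      by_cases hx : x ∈ R
      · rcases hf.1 x hx with h2 | h2 <;> rw [h2] <;> norm_num
      · rw [hf.2 x hx]; norm_num
    have hb2 : ∀ f : X → ℝ, Cf R f → ∀ x y, |f x * f y| ≤ 1 := by
      intro f hf x y
      rw [abs_mul]
      exact mul_le_one₀ (hb1 f hf x) (abs_nonneg _) (hb1 f hf y)
    have hcb : ∑ e ∈ C, J e * (σ (a e) * σ (b e) - ρ (a e) * ρ (b e)) ≤ 2 * wt C J := by
      unfold wt
      rw [Finset.mul_sum]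
      refine Finset.sum_le_sum fun e _ => ?_
      have h2 := hb2 σ h.1 (a e) (b e)
      have h3 := hb2 ρ hcf (a e) (b e)
      have h4 : |σ (a e) * σ (b e) - ρ (a e) * ρ (b e)| ≤ 2 := by
        rw [abs_le] at h2 h3 ⊢
        constructor <;> linarith [h2.1, h2.2, h3.1, h3.2]
      calc J e * (σ (a e) * σ (b e) - ρ (a e) * ρ (b e))
          ≤ |J e * (σ (a e) * σ (b e) - ρ (a e) * ρ (b e))| := le_abs_self _
        _ = |J e| * |σ (a e) * σ (b e) - ρ (a e) * ρ (b e)| := abs_mul _ _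
        _ ≤ |J e| * 2 := by gcongr
        _ = 2 * |J e| := by ring
    have hin : ∑ e ∈ I, J e * (σ (a e) * σ (b e) - ρ (a e) * ρ (b e)) =
        ∑ e ∈ I, J e * (σ (a e) * σ (b e)) - ∑ e ∈ I, J e * (s (a e) * s (b e)) := by
      rw [← Finset.sum_sub_distrib]
      refine Finset.sum_congr rfl fun e he => ?_
      have h2 := (hI e).1 he
      rw [hρB _ h2.1, hρB _ h2.2]
      ring
    rw [hin] at h1
    linarith

/-- the largest energy inside `B` (without the bond `e0`) with relative spin `c` at `e0` -/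
noncomputable def M (a b : E → X) (e0 : E) (B : Finset X) (I : Finset E) (c : ℝ)
    (J : E → ℝ) : ℝ := open Classical in
  ⨆ A : {A : Finset X // A ⊆ B ∧ sA A (a e0) * sA A (b e0) = c},
    ∑ e ∈ I.erase e0, J e * (sA A.1 (a e) * sA A.1 (b e))

instance finA (B : Finset X) (P : Finset X → Prop) : Finite {A : Finset X // A ⊆ B ∧ P A} := by
  classical
  have h : {A : Finset X | A ⊆ B ∧ P A}.Finite :=
    (B.powerset.finite_toSet).subset fun A hA => by
      simp only [Finset.coe_powerset, Set.mem_preimage, Set.mem_powerset_iff, Finset.coe_subset]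
      exact hA.1
  exact h.to_subtype

lemma M_meas (e0 : E) (B : Finset X) (I : Finset E) (c : ℝ) :
    Measurable (M a b e0 B I c) := by
  classical
  unfold M
  haveI : Countable {A : Finset X // A ⊆ B ∧ sA A (a e0) * sA A (b e0) = c} :=
    Finite.to_countable
  refine Measurable.iSup fun A => ?_
  fun_prop

lemma M_up [DecidableEq E] (e0 : E) (B : Finset X) (I : Finset E) (c : ℝ) (J : E → ℝ) (v : ℝ) :
    M a b e0 B I c (Function.update J e0 v) = M a b e0 B I c J := by
  unfold M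
  congr 1
  funext A
  refine Finset.sum_congr ?_ fun e he => ?_
  · congr
  · have h : e ≠ e0 := by
      rintro rfl
      simp at he
    rw [Function.update_of_ne h]

lemma wt_up [DecidableEq E] {e0 : E} {C : Finset E} (h : e0 ∉ C) (J : E → ℝ) (v : ℝ) :
    wt C (Function.update J e0 v) = wt C J := by
  unfold wt
  refine Finset.sum_congr rfl fun e he => ?_
  have h2 : e ≠ e0 := by
    rintro rfl
    exact h he
  rw [Function.update_of_ne h2]

lemma half {J : E → ℝ} {σ : X → ℝ} (h : GS a b R J σ) {B : Finset X} (hB : (B : Set X) ⊆ R)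
    {C I : Finset E} (hC : (C : Set E) = cut a b R B) (hI : ∀ e, e ∈ I ↔ a e ∈ B ∧ b e ∈ B)
    {e0 : E} (ha : a e0 ∈ B) (hb : b e0 ∈ B) (hab : a e0 ≠ b e0) {c : ℝ} (hc : c = 1 ∨ c = -1)
    (hσ : σ (a e0) * σ (b e0) = c) :
    M a b e0 B I (-c) J ≤ M a b e0 B I c J + 2 * (c * J e0) + 2 * wt C J := by
  classical
  have hne : ∃ A : Finset X, A ⊆ B ∧ sA A (a e0) * sA A (b e0) = -c := by
    rcases hc with rfl | rfl
    · refine ⟨{a e0}, by simpa using ha, ?_⟩
      simp [sA, hab.symm]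
    · refine ⟨∅, by simp, ?_⟩
      simp [sA]
  haveI : Nonempty {A : Finset X // A ⊆ B ∧ sA A (a e0) * sA A (b e0) = -c} :=
    let ⟨A, hA⟩ := hne; ⟨⟨A, hA⟩⟩
  obtain ⟨A, hA⟩ := exists_eq_ciSup_of_finite
    (f := fun A : {A : Finset X // A ⊆ B ∧ sA A (a e0) * sA A (b e0) = -c} =>
      ∑ e ∈ I.erase e0, J e * (sA A.1 (a e) * sA A.1 (b e)))
  have hA2 : ∑ e ∈ I.erase e0, J e * (sA A.1 (a e) * sA A.1 (b e)) = M a b e0 B I (-c) J := by
    unfold M
    exact hA
  have he0 : e0 ∈ I := (hI e0).2 ⟨ha, hb⟩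
  have h1 := key1 h hB hC hI (s := sA A.1) (sA_pm A.1)
  rw [← Finset.sum_erase_add _ _ he0, ← Finset.sum_erase_add _ _ he0, hA2, A.2.2, hσ] at h1
  -- σ as a set
  set A' : Finset X := B.filter (fun x => σ x = -1) with hA'
  have hval : ∀ x ∈ B, sA A' x = σ x := by
    intro x hx
    unfold sA
    rcases h.1.1 x (hB hx) with h2 | h2
    · rw [if_neg]
      · exact h2.symm
      · rw [hA', Finset.mem_filter, h2]
        norm_num
    · rw [if_pos]
      · exact h2.symm
      · rw [hA', Finset.mem_filter, h2]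
        exact ⟨hx, rfl⟩
  have h3 : ∑ e ∈ I.erase e0, J e * (σ (a e) * σ (b e)) ≤ M a b e0 B I c J := by
    have h4 := le_ciSup (f := fun A : {A : Finset X // A ⊆ B ∧ sA A (a e0) * sA A (b e0) = c} =>
      ∑ e ∈ I.erase e0, J e * (sA A.1 (a e) * sA A.1 (b e))) (Set.finite_range _).bddAbove
      ⟨A', Finset.filter_subset _ _, by rw [hval _ ha, hval _ hb, hσ]⟩
    refine le_trans (le_of_eq ?_) h4
    refine Finset.sum_congr rfl fun e he => ?_
    have h5 := (hI e).1 (Finset.mem_of_mem_erase he)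
    simp only [hval _ h5.1, hval _ h5.2]
  linarith

theorem window {J : E → ℝ} {σ τ : X → ℝ} (hσ : GS a b R J σ) (hτ : GS a b R J τ)
    {B : Finset X} (hB : (B : Set X) ⊆ R)
    {C I : Finset E} (hC : (C : Set E) = cut a b R B) (hI : ∀ e, e ∈ I ↔ a e ∈ B ∧ b e ∈ B)
    {e0 : E} (ha : a e0 ∈ B) (hb : b e0 ∈ B)
    (hne : σ (a e0) * σ (b e0) ≠ τ (a e0) * τ (b e0)) :
    |J e0 - (M a b e0 B I (-1) J - M a b e0 B I 1 J) / 2| ≤ wt C J := by
  have hab : a e0 ≠ b e0 := by
    intro h
    apply hne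
    rw [← h]
    rcases hσ.1.1 _ (hB ha) with h1 | h1 <;> rcases hτ.1.1 _ (hB ha) with h2 | h2 <;>
      rw [h1, h2] <;> norm_num
  have key : ∀ f g : X → ℝ, GS a b R J f → GS a b R J g → f (a e0) * f (b e0) = 1 →
      g (a e0) * g (b e0) = -1 →
      |J e0 - (M a b e0 B I (-1) J - M a b e0 B I 1 J) / 2| ≤ wt C J := by
    intro f g hf hg h1 h2
    have h3 := half hf hB hC hI ha hb hab (Or.inl rfl) h1
    have h4 := half hg hB hC hI ha hb hab (Or.inr rfl) h2
    rw [neg_neg] at h4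
    rw [abs_le]
    constructor <;> linarith
  have hpm : ∀ f : X → ℝ, GS a b R J f → f (a e0) * f (b e0) = 1 ∨ f (a e0) * f (b e0) = -1 := by
    intro f hf
    rcases hf.1.1 _ (hB ha) with h1 | h1 <;> rcases hf.1.1 _ (hB hb) with h2 | h2 <;>
      rw [h1, h2] <;> norm_num
  rcases hpm σ hσ with h1 | h1 <;> rcases hpm τ hτ with h2 | h2
  · exact absurd (h1.trans h2.symm) hne
  · exact key σ τ hσ hτ h1 h2
  · exact key τ σ hτ hσ h2 h1
  · exact absurd (h1.trans h2.symm) hne

end Pool.Agent.Q233.WC
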