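import Pool.Agent.Q233.WC.Det

/-!
# Existence of ground states on a region (for generic couplings)

The proof is that of `Pool.Agent.TH761.EB.exists_gs`; the boundary of a finite set of sites is only
assumed to be nonempty, with no condition on the orientation of its bonds.
-/

set_option autoImplicit false

open Finset MeasureTheory Pool.Agent.TH761.EB

namespace Pool.Agent.Q233.WC

variable {X E : Type} {a b : E → X} {R : Set X}

theorem exists_gs (hfib : ∀ x, {e | a e = x ∨ b e = x}.Finite)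
    (hfront : ∀ D : Finset X, D.Nonempty → (D : Set X) ⊆ R →
      ∃ e, e ∈ cut a b R D)
    {J : E → ℝ} (hJ : ∀ T1 T2 : Finset E, Disjoint T1 T2 → (∃ e, e ∈ T1 ∨ e ∈ T2) →
      ∑ e ∈ T1, J e ≠ ∑ e ∈ T2, J e) :
    ∃ σ, GS a b R J σ := by
  classical
  set c : Finset X → X → ℝ := fun A x => if x ∈ R then (if x ∈ A then -1 else 1) else 0 with hc
  have hcpm : ∀ A, Cf R (c A) := by
    intro A
    refine ⟨fun x hx => ?_, fun x hx => ?_⟩
    · simp only [hc, hx, if_true]; split_ifs <;> simp
    · simp only [hc, hx, if_false]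
  set T : Finset X → Finset E := fun Λ => Λ.biUnion fun x => (hfib x).toFinset with hT
  have memT : ∀ Λ e, e ∈ T Λ ↔ a e ∈ Λ ∨ b e ∈ Λ := by
    intro Λ e
    simp only [hT, Finset.mem_biUnion, Set.Finite.mem_toFinset, Set.mem_setOf_eq]
    constructor
    · rintro ⟨x, hx, h | h⟩
      · left; rw [h]; exact hx
      · right; rw [h]; exact hx
    · rintro (h | h)
      · exact ⟨_, h, Or.inl rfl⟩
      · exact ⟨_, h, Or.inr rfl⟩
  have hmax : ∀ Λ : Finset X, ∃ A : Finset X, A ⊆ Λ ∧ ∀ B : Finset X, B ⊆ Λ →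
      ∑ e ∈ T Λ, J e * (c B (a e) * c B (b e)) ≤ ∑ e ∈ T Λ, J e * (c A (a e) * c A (b e)) := by
    intro Λ
    obtain ⟨A, hA1, hA⟩ := Finset.exists_max_image Λ.powerset
      (fun A => ∑ e ∈ T Λ, J e * (c A (a e) * c A (b e))) ⟨∅, by simp⟩
    exact ⟨A, Finset.mem_powerset.1 hA1, fun B hB => hA B (Finset.mem_powerset.2 hB)⟩
  choose A hAs hA using hmax
  set U : Ultrafilter (Finset X) := Ultrafilter.of Filter.atTop with hU
  set σ : X → ℝ := fun x => if x ∈ R then (if ∀ᶠ Λ in (U : Filter (Finset X)), c (A Λ) x = 1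
    then 1 else -1) else 0 with hσ
  have hlim : ∀ x, ∀ᶠ Λ in (U : Filter (Finset X)), c (A Λ) x = σ x := by
    intro x
    by_cases hx : x ∈ R
    · by_cases h : ∀ᶠ Λ in (U : Filter (Finset X)), c (A Λ) x = 1
      · simp only [hσ, h, hx, if_true]
      · simp only [hσ, h, hx, if_false, if_true]
        rw [← Ultrafilter.eventually_not] at h
        filter_upwards [h] with Λ hΛ
        rcases (hcpm (A Λ)).1 x hx with h1 | h1
        · exact absurd h1 hΛ
        · exact h1
    · simp only [hσ, hx, if_false]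
      exact Filter.Eventually.of_forall fun Λ => (hcpm (A Λ)).2 x hx
  have hPσ : Cf R σ := by
    refine ⟨fun x hx => ?_, fun x hx => ?_⟩
    · simp only [hσ, hx, if_true]; split_ifs <;> simp
    · simp only [hσ, hx, if_false]
  refine ⟨σ, hPσ, ?_⟩
  intro ρ hρ hfin hne
  set D : Finset X := hfin.toFinset with hD
  have memD : ∀ x, x ∈ D ↔ ρ x ≠ σ x := by intro x; simp [hD]
  have hDR : (D : Set X) ⊆ R := by
    intro x hx
    by_contra hcx
    exact (memD x).1 hx (by rw [hρ.2 x hcx, hPσ.2 x hcx])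
  have hDne : D.Nonempty := by
    by_contra hcon
    rw [Finset.not_nonempty_iff_eq_empty] at hcon
    apply hne
    funext x
    by_contra hx
    have := (memD x).2 hx
    rw [hcon] at this
    simp at this
  have hoff : ∀ x, x ∉ D → ρ x = σ x := by
    intro x hx
    by_contra hc2
    exact hx ((memD x).2 hc2)
  -- the energy difference as a finite sum
  have hfs : ∑ᶠ e, J e * (σ (a e) * σ (b e) - ρ (a e) * ρ (b e)) =
      ∑ e ∈ T D, J e * (σ (a e) * σ (b e) - ρ (a e) * ρ (b e)) := by
    apply finsum_eq_sum_of_support_subset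
    intro e he
    by_contra hc2
    apply he
    have h1 : ¬ (a e ∈ D ∨ b e ∈ D) := fun h => hc2 ((memT D e).2 h)
    push Not at h1
    simp only [hoff _ h1.1, hoff _ h1.2, sub_self, mul_zero]
  rw [hfs]
  -- nonnegative
  have hnn : 0 ≤ ∑ e ∈ T D, J e * (σ (a e) * σ (b e) - ρ (a e) * ρ (b e)) := by
    have h1 : ∀ᶠ Λ in (U : Filter (Finset X)), ∀ e ∈ T D,
        c (A Λ) (a e) = σ (a e) ∧ c (A Λ) (b e) = σ (b e) :=
      (Filter.eventually_all_finset _).2 fun e _ => (hlim (a e)).and (hlim (b e))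
    have h2 : ∀ᶠ Λ in (U : Filter (Finset X)), D ⊆ Λ :=
      Ultrafilter.of_le (Filter.atTop : Filter (Finset X)) (Filter.eventually_ge_atTop D)
    obtain ⟨Λ, hΛ1, hΛ2⟩ := (h1.and h2).exists
    set B : Finset X := (A Λ \ D) ∪ D.filter (fun x => ρ x = -1) with hB
    have hBs : B ⊆ Λ := by
      intro x hx
      rw [hB, Finset.mem_union, Finset.mem_sdiff, Finset.mem_filter] at hx
      rcases hx with hx | hx
      · exact hAs Λ hx.1
      · exact hΛ2 hx.1
    have cBD : ∀ x ∈ D, c B x = ρ x := by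
      intro x hx
      have hxR : x ∈ R := hDR hx
      simp only [hc, hxR, if_true, hB, Finset.mem_union, Finset.mem_sdiff, Finset.mem_filter, hx,
        not_true_eq_false, and_false, true_and, false_or]
      rcases hρ.1 x hxR with h | h
      · rw [h]; norm_num
      · rw [h]; simp
    have cBo : ∀ x, x ∉ D → c B x = c (A Λ) x := by
      intro x hx
      simp only [hc, hB, Finset.mem_union, Finset.mem_sdiff, Finset.mem_filter, hx,
        not_false_eq_true, and_true, false_and, or_false]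
    have h3 := hA Λ B hBs
    rw [← sub_nonneg, ← Finset.sum_sub_distrib] at h3
    have hsub : T D ⊆ T Λ := by
      intro e he
      rw [memT] at he ⊢
      rcases he with he | he
      · exact Or.inl (hΛ2 he)
      · exact Or.inr (hΛ2 he)
    rw [← Finset.sum_subset hsub (fun e _ he => by
      rw [memT] at he
      push Not at he
      rw [cBo _ he.1, cBo _ he.2, sub_self])] at h3
    refine h3.trans (le_of_eq ?_)
    refine Finset.sum_congr rfl fun e he => ?_
    have h4 := hΛ1 e he
    have h5 : ∀ x, c (A Λ) x = σ x → c B x = ρ x := by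
      intro x hx
      by_cases hxD : x ∈ D
      · exact cBD x hxD
      · rw [cBo x hxD, hx, hoff x hxD]
    rw [h5 _ h4.1, h5 _ h4.2, h4.1, h4.2]
    ring
  refine lt_of_le_of_ne hnn (Ne.symm ?_)
  set T1 := (T D).filter (fun e => σ (a e) * σ (b e) - ρ (a e) * ρ (b e) = 2) with hT1
  set T2 := (T D).filter (fun e => σ (a e) * σ (b e) - ρ (a e) * ρ (b e) = -2) with hT2
  have hval : ∀ e, σ (a e) * σ (b e) - ρ (a e) * ρ (b e) = 0 ∨
      σ (a e) * σ (b e) - ρ (a e) * ρ (b e) = 2 ∨
      σ (a e) * σ (b e) - ρ (a e) * ρ (b e) = -2 := by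
    intro e
    by_cases ha : a e ∈ R
    · by_cases hb : b e ∈ R
      · rcases hPσ.1 _ ha with h1 | h1 <;> rcases hPσ.1 _ hb with h2 | h2 <;>
          rcases hρ.1 _ ha with h3 | h3 <;> rcases hρ.1 _ hb with h4 | h4 <;>
          rw [h1, h2, h3, h4] <;> norm_num
      · left; rw [hPσ.2 _ hb, hρ.2 _ hb]; ring
    · left; rw [hPσ.2 _ ha, hρ.2 _ ha]; ring
  have hsum : ∑ e ∈ T D, J e * (σ (a e) * σ (b e) - ρ (a e) * ρ (b e)) =
      2 * (∑ e ∈ T1, J e - ∑ e ∈ T2, J e) := by
    rw [hT1, hT2, Finset.sum_filter, Finset.sum_filter, ← Finset.sum_sub_distrib, Finset.mul_sum]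
    refine Finset.sum_congr rfl fun e _ => ?_
    rcases hval e with h1 | h1 | h1 <;> rw [h1] <;> norm_num
    · ring
    · ring
  rw [hsum]
  obtain ⟨e, he⟩ := hfront D hDne hDR
  have hex : e ∈ T1 ∨ e ∈ T2 := by
    rcases he with ⟨he1, he2, he3⟩ | ⟨he1, he2, he3⟩
    · rw [Finset.mem_coe] at he1 he3
      have h1 : ρ (a e) ≠ σ (a e) := (memD _).1 he1
      have h2 : ρ (b e) = σ (b e) := hoff _ he3
      have haR : a e ∈ R := hDR he1
      rw [hT1, hT2, Finset.mem_filter, Finset.mem_filter, h2]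
      have hmem : e ∈ T D := (memT D e).2 (Or.inl he1)
      simp only [hmem, true_and]
      rcases hPσ.1 _ haR with h3 | h3 <;> rcases hρ.1 _ haR with h4 | h4 <;>
        rcases hPσ.1 _ he2 with h5 | h5 <;> rw [h3, h4, h5] <;>
        first | exact absurd (h4.trans h3.symm) h1 | norm_num
    · rw [Finset.mem_coe] at he1 he3
      have h1 : ρ (b e) ≠ σ (b e) := (memD _).1 he1
      have h2 : ρ (a e) = σ (a e) := hoff _ he3
      have haR : b e ∈ R := hDR he1
      rw [hT1, hT2, Finset.mem_filter, Finset.mem_filter, h2]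
      have hmem : e ∈ T D := (memT D e).2 (Or.inr he1)
      simp only [hmem, true_and]
      rcases hPσ.1 _ haR with h3 | h3 <;> rcases hρ.1 _ haR with h4 | h4 <;>
        rcases hPσ.1 _ he2 with h5 | h5 <;> rw [h3, h4, h5] <;>
        first | exact absurd (h4.trans h3.symm) h1 | norm_num
  have hne2 := hJ T1 T2 (by
    rw [Finset.disjoint_left]
    intro e h1 h2
    rw [hT1, Finset.mem_filter] at h1
    rw [hT2, Finset.mem_filter] at h2
    linarith [h1.2, h2.2]) ⟨e, hex⟩
  intro h0
  apply hne2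
  linarith

end Pool.Agent.Q233.WC
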