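import Pool.Agent.Q233.WC.Cuts

/-!
# Two lines joined by one bond

Every finite set of sites is enclosed by at most four bonds, but for laws with values in
`±[1, 2)` there are incongruent ground states.
-/

set_option autoImplicit false

open MeasureTheory ProbabilityTheory Filter Topology Pool.Agent.TH761.EB
open scoped ENNReal

namespace Pool.Agent.Q233.WC

/-- first end of a bond of the two lines (`none`: the rung) -/
def ha : Option (ℤ × Bool) → ℤ × Bool
  | none => (0, false)
  | some x => x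

/-- second end of a bond of the two lines (`none`: the rung) -/
def hb : Option (ℤ × Bool) → ℤ × Bool
  | none => (0, true)
  | some x => (x.1 + 1, x.2)

lemma h_fib (x : ℤ × Bool) : {e | ha e = x ∨ hb e = x}.Finite := by
  refine Set.Finite.subset (Set.toFinite {none, some x, some (x.1 - 1, x.2)}) ?_
  rintro (_ | y) h
  · simp
  · rcases h with h | h
    · simp only [ha] at h
      simp [h]
    · simp only [hb] at h
      rw [← h]
      simp

lemma h_conn (S : Set (ℤ × Bool)) (hS : S ⊆ Set.univ) (h1 : S.Nonempty)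
    (h2 : (Set.univ \ S).Nonempty) : (cut ha hb Set.univ S).Nonempty := by
  by_contra hc
  rw [Set.not_nonempty_iff_eq_empty] at hc
  have hb' : ∀ e, (ha e ∈ S ↔ hb e ∈ S) := by
    intro e
    by_contra hne
    have : e ∈ cut ha hb Set.univ S := by
      by_cases h3 : ha e ∈ S
      · by_cases h4 : hb e ∈ S
        · exact absurd (iff_of_true h3 h4) hne
        · exact Or.inl ⟨h3, trivial, h4⟩
      · by_cases h4 : hb e ∈ S
        · exact Or.inr ⟨h4, trivial, h3⟩
        · exact absurd (iff_of_false h3 h4) hne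
    rw [hc] at this
    exact this
  have hline : ∀ (s : Bool) (i : ℤ), ((i, s) ∈ S ↔ ((0 : ℤ), s) ∈ S) := by
    intro s i
    induction i using Int.induction_on with
    | zero => rfl
    | succ i ih => rw [← ih]; exact (hb' (some (i, s))).symm
    | pred i ih =>
      rw [← ih]
      have h3 := hb' (some (-(i : ℤ) - 1, s))
      simp only [ha, hb, sub_add_cancel] at h3
      exact h3
  have hr : (((0 : ℤ), false) ∈ S ↔ ((0 : ℤ), true) ∈ S) := hb' none
  have hall : ∀ x : ℤ × Bool, (x ∈ S ↔ ((0 : ℤ), false) ∈ S) := by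
    rintro ⟨i, s⟩
    rw [hline s i]
    cases s
    · exact Iff.rfl
    · exact hr.symm
  obtain ⟨x, hx⟩ := h1
  obtain ⟨y, -, hy2⟩ := h2
  exact hy2 ((hall y).2 ((hall x).1 hx))

lemma h_encl (F : Finset (ℤ × Bool)) : ∃ B : Finset (ℤ × Bool),
    (B : Set (ℤ × Bool)) ⊆ Set.univ ∧ F ⊆ B ∧ (cut ha hb Set.univ B).ncard ≤ 4 := by
  classical
  obtain ⟨n, hn⟩ : ∃ n : ℕ, ∀ x ∈ F, |x.1| ≤ n := by
    refine ⟨∑ x ∈ F, x.1.natAbs, fun x hx => ?_⟩
    have h1 : x.1.natAbs ≤ ∑ x ∈ F, x.1.natAbs :=
      Finset.single_le_sum (f := fun x : ℤ × Bool => x.1.natAbs) (fun _ _ => Nat.zero_le _) hx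
    rw [Int.abs_eq_natAbs]
    exact_mod_cast h1
  refine ⟨(Finset.Icc (-(n : ℤ)) n) ×ˢ Finset.univ, Set.subset_univ _, fun x hx => ?_, ?_⟩
  · rw [Finset.mem_product, Finset.mem_Icc]
    exact ⟨abs_le.1 (hn x hx), Finset.mem_univ _⟩
  · have hsub : cut ha hb Set.univ (((Finset.Icc (-(n : ℤ)) n) ×ˢ Finset.univ :
        Finset (ℤ × Bool)) : Set (ℤ × Bool)) ⊆
        ((({-(n : ℤ) - 1, (n : ℤ)} ×ˢ Finset.univ : Finset (ℤ × Bool)).image some :
          Finset (Option (ℤ × Bool))) : Set (Option (ℤ × Bool))) := by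
      rintro (_ | ⟨i, s⟩) h
      · exfalso
        simp only [cut, ha, hb, Finset.coe_product, Finset.coe_univ, Finset.coe_Icc,
          Set.mem_ofPred_eq, Set.mem_prod, Set.mem_Icc, Set.mem_univ, Set.mem_diff, and_true,
          true_and] at h
        omega
      · simp only [cut, ha, hb, Finset.coe_product, Finset.coe_univ, Finset.coe_Icc,
          Set.mem_ofPred_eq, Set.mem_prod, Set.mem_Icc, Set.mem_univ, Set.mem_diff, and_true,
          true_and] at h
        rw [Finset.mem_coe, Finset.mem_image]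
        refine ⟨(i, s), ?_, rfl⟩
        simp only [Finset.mem_product, Finset.mem_insert, Finset.mem_singleton, Finset.mem_univ,
          and_true]
        omega
    refine (Set.ncard_le_ncard hsub (Finset.finite_toSet _)).trans ?_
    rw [Set.ncard_coe_finset]
    refine Finset.card_image_le.trans ?_
    rw [Finset.card_product]
    have h1 : ({-(n : ℤ) - 1, (n : ℤ)} : Finset ℤ).card ≤ 2 := Finset.card_le_two
    have h2 : (Finset.univ : Finset Bool).card = 2 := by simp
    rw [h2]
    omega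

/-- a configuration with prescribed signs on a line -/
lemma line_exists (g : ℤ → ℝ) (hg : ∀ i, g i = 1 ∨ g i = -1) :
    ∃ f : ℤ → ℝ, (∀ i, f i = 1 ∨ f i = -1) ∧ f 0 = 1 ∧ ∀ i, f i * f (i + 1) = g i := by
  classical
  have hgg : ∀ i, g i * g i = 1 := by
    intro i
    rcases hg i with h | h <;> rw [h] <;> norm_num
  have hprod : ∀ s : Finset ℤ, (∏ j ∈ s, g j = 1 ∨ ∏ j ∈ s, g j = -1) := by
    intro s
    induction s using Finset.induction_on with
    | empty => left; simp
    | insert i s hi ih =>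
      rw [Finset.prod_insert hi]
      rcases hg i with h | h <;> rcases ih with h2 | h2 <;> rw [h, h2] <;> norm_num
  have hsq : ∀ s : Finset ℤ, (∏ j ∈ s, g j) * (∏ j ∈ s, g j) = 1 := by
    intro s
    rcases hprod s with h | h <;> rw [h] <;> norm_num
  refine ⟨fun i => (∏ j ∈ Finset.Ico 0 i, g j) * (∏ j ∈ Finset.Ico i 0, g j), ?_, ?_, ?_⟩
  · intro i
    rcases hprod (Finset.Ico 0 i) with h | h <;> rcases hprod (Finset.Ico i 0) with h2 | h2 <;>
      simp only [h, h2] <;> norm_num
  · simp
  · intro i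
    simp only
    rcases le_or_gt 0 i with hi | hi
    · have e1 : Finset.Ico i 0 = ∅ := Finset.Ico_eq_empty (by omega)
      have e2 : Finset.Ico (i + 1) 0 = ∅ := Finset.Ico_eq_empty (by omega)
      have e3 : Finset.Ico 0 (i + 1) = insert i (Finset.Ico 0 i) := by
        ext j
        simp only [Finset.mem_Ico, Finset.mem_insert]
        omega
      rw [e1, e2, e3, Finset.prod_insert (by simp), Finset.prod_empty]
      have h1 := hsq (Finset.Ico 0 i)
      linear_combination (g i) * h1
    · have e1 : Finset.Ico 0 i = ∅ := Finset.Ico_eq_empty (by omega)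
      have e2 : Finset.Ico 0 (i + 1) = ∅ := Finset.Ico_eq_empty (by omega)
      have e3 : Finset.Ico i 0 = insert i (Finset.Ico (i + 1) 0) := by
        ext j
        simp only [Finset.mem_Ico, Finset.mem_insert]
        omega
      rw [e1, e2, e3, Finset.prod_insert (by simp), Finset.prod_empty]
      have h1 := hsq (Finset.Ico (i + 1) 0)
      linear_combination (g i) * h1

lemma h_gs {J : Option (ℤ × Bool) → ℝ} (hJ : ∀ e, 1 ≤ |J e| ∧ |J e| < 2) {σ : ℤ × Bool → ℝ}
    (hσ : ∀ x, σ x = 1 ∨ σ x = -1)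
    (hsat : ∀ x : ℤ × Bool, 0 < J (some x) * (σ x * σ (x.1 + 1, x.2))) :
    GS ha hb Set.univ J σ := by
  classical
  refine ⟨⟨fun x _ => hσ x, fun x hx => absurd (Set.mem_univ x) hx⟩, ?_⟩
  intro ρ hρ hfin hne
  have hρ' : ∀ x, ρ x = 1 ∨ ρ x = -1 := fun x => hρ.1 x (Set.mem_univ x)
  set D : Finset (ℤ × Bool) := hfin.toFinset with hD
  have memD : ∀ x, x ∈ D ↔ ρ x ≠ σ x := by intro x; simp [hD]
  have hneg : ∀ x, x ∈ D → ρ x = -σ x := by
    intro x hx
    have h1 := (memD x).1 hx
    rcases hσ x with h2 | h2 <;> rcases hρ' x with h3 | h3 <;> rw [h2, h3] at h1 ⊢ <;>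
      first | exact absurd rfl h1 | norm_num
  have hsame : ∀ x, x ∉ D → ρ x = σ x := by
    intro x hx
    by_contra hc
    exact hx ((memD x).2 hc)
  have hval : ∀ x : ℤ × Bool, J (some x) * (σ x * σ (x.1 + 1, x.2)) = |J (some x)| := by
    intro x
    have h1 := hsat x
    rcases hσ x with h2 | h2 <;> rcases hσ (x.1 + 1, x.2) with h3 | h3 <;>
      rw [h2, h3] at h1 ⊢ <;> rcases abs_cases (J (some x)) with ⟨h4, h5⟩ | ⟨h4, h5⟩ <;>
      rw [h4] <;> linarith
  have hDne : D.Nonempty := by
    by_contra hcon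
    rw [Finset.not_nonempty_iff_eq_empty] at hcon
    apply hne
    funext x
    apply hsame
    rw [hcon]
    simp
  obtain ⟨⟨i0, s⟩, hx0⟩ := hDne
  set Ds : Finset ℤ := (D.filter (fun x => x.2 = s)).image Prod.fst with hDs
  have memDs : ∀ i, i ∈ Ds ↔ (i, s) ∈ D := by
    intro i
    simp only [hDs, Finset.mem_image, Finset.mem_filter]
    constructor
    · rintro ⟨⟨j, t⟩, ⟨h1, h2⟩, h3⟩
      simp only at h2 h3
      rw [← h3, ← h2]
      exact h1
    · intro h
      exact ⟨(i, s), ⟨h, rfl⟩, rfl⟩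
  have hDsne : Ds.Nonempty := ⟨i0, (memDs i0).2 hx0⟩
  set p := Ds.max' hDsne with hp
  set q := Ds.min' hDsne with hq
  have hpD : (p, s) ∈ D := (memDs p).1 (Finset.max'_mem _ _)
  have hqD : (q, s) ∈ D := (memDs q).1 (Finset.min'_mem _ _)
  have hp1 : (p + 1, s) ∉ D := by
    intro h
    have := Finset.le_max' Ds _ ((memDs _).2 h)
    omega
  have hq1 : (q - 1, s) ∉ D := by
    intro h
    have := Finset.min'_le Ds _ ((memDs _).2 h)
    omega
  have hqp : q ≤ p := Finset.min'_le_max' Ds hDsne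
  set φ : Option (ℤ × Bool) → ℝ := fun e => J e * (σ (ha e) * σ (hb e) - ρ (ha e) * ρ (hb e))
    with hφ
  have hnn : ∀ x : ℤ × Bool, 0 ≤ φ (some x) := by
    intro x
    simp only [hφ, ha, hb]
    have h1 := hval x
    have h2 := abs_nonneg (J (some x))
    by_cases h3 : x ∈ D <;> by_cases h4 : (x.1 + 1, x.2) ∈ D
    · rw [hneg _ h3, hneg _ h4]; ring_nf; rfl
    · rw [hneg _ h3, hsame _ h4]
      have : J (some x) * (σ x * σ (x.1 + 1, x.2) - -σ x * σ (x.1 + 1, x.2)) =
        2 * (J (some x) * (σ x * σ (x.1 + 1, x.2))) := by ring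
      rw [this, h1]; linarith
    · rw [hsame _ h3, hneg _ h4]
      have : J (some x) * (σ x * σ (x.1 + 1, x.2) - σ x * -σ (x.1 + 1, x.2)) =
        2 * (J (some x) * (σ x * σ (x.1 + 1, x.2))) := by ring
      rw [this, h1]; linarith
    · rw [hsame _ h3, hsame _ h4]; ring_nf; rfl
  have h2p : 2 ≤ φ (some (p, s)) := by
    simp only [hφ, ha, hb]
    have h1 := hval (p, s)
    rw [hneg _ hpD, hsame _ hp1]
    have : J (some (p, s)) * (σ (p, s) * σ (p + 1, s) - -σ (p, s) * σ (p + 1, s)) =
      2 * (J (some (p, s)) * (σ (p, s) * σ (p + 1, s))) := by ring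
    rw [this, h1]
    linarith [(hJ (some (p, s))).1]
  have h2q : 2 ≤ φ (some (q - 1, s)) := by
    simp only [hφ, ha, hb, sub_add_cancel]
    have h1 := hval (q - 1, s)
    simp only [sub_add_cancel] at h1
    rw [hneg _ hqD, hsame _ hq1]
    have : J (some (q - 1, s)) * (σ (q - 1, s) * σ (q, s) - σ (q - 1, s) * -σ (q, s)) =
      2 * (J (some (q - 1, s)) * (σ (q - 1, s) * σ (q, s))) := by ring
    rw [this, h1]
    linarith [(hJ (some (q - 1, s))).1]
  have hr : -4 < φ none := by
    simp only [hφ, ha, hb]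
    have h1 := (hJ none).2
    rw [abs_lt] at h1
    rcases hσ (0, false) with h2 | h2 <;> rcases hσ (0, true) with h3 | h3 <;>
      rcases hρ' (0, false) with h4 | h4 <;> rcases hρ' (0, true) with h5 | h5 <;>
      rw [h2, h3, h4, h5] <;> linarith [h1.1, h1.2]
  set T : Finset (Option (ℤ × Bool)) := insert none (D.biUnion fun x => (h_fib x).toFinset) with hT
  have memT : ∀ e, e ∈ T ↔ e = none ∨ (ha e ∈ D ∨ hb e ∈ D) := by
    intro e
    simp only [hT, Finset.mem_insert, Finset.mem_biUnion, Set.Finite.mem_toFinset,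
      Set.mem_ofPred_eq]
    refine or_congr Iff.rfl ?_
    constructor
    · rintro ⟨x, hx, h | h⟩
      · left; rw [h]; exact hx
      · right; rw [h]; exact hx
    · rintro (h | h)
      · exact ⟨_, h, Or.inl rfl⟩
      · exact ⟨_, h, Or.inr rfl⟩
  have hfs : ∑ᶠ e, φ e = ∑ e ∈ T, φ e := by
    apply finsum_eq_sum_of_support_subset
    intro e he
    by_contra hc2
    apply he
    have h1 : ¬ (e = none ∨ (ha e ∈ D ∨ hb e ∈ D)) := fun h => hc2 ((memT e).2 h)
    push Not at h1
    simp only [hφ, hsame _ h1.2.1, hsame _ h1.2.2, sub_self, mul_zero]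
  change 0 < ∑ᶠ e, φ e
  rw [hfs]
  have hsub : ({none, some (p, s), some (q - 1, s)} : Finset (Option (ℤ × Bool))) ⊆ T := by
    intro e he
    simp only [Finset.mem_insert, Finset.mem_singleton] at he
    rw [memT]
    rcases he with rfl | rfl | rfl
    · exact Or.inl rfl
    · exact Or.inr (Or.inl hpD)
    · right; right
      simp only [hb, sub_add_cancel]
      exact hqD
  have h3 : ∑ e ∈ ({none, some (p, s), some (q - 1, s)} : Finset (Option (ℤ × Bool))), φ e ≤
      ∑ e ∈ T, φ e := by
    refine Finset.sum_le_sum_of_subset_of_nonneg hsub fun e _ he => ?_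
    cases e with
    | none => simp at he
    | some x => exact hnn x
  have h4 : ∑ e ∈ ({none, some (p, s), some (q - 1, s)} : Finset (Option (ℤ × Bool))), φ e =
      φ none + (φ (some (p, s)) + φ (some (q - 1, s))) := by
    rw [Finset.sum_insert (by simp), Finset.sum_insert, Finset.sum_singleton]
    simp only [Finset.mem_singleton, Option.some.injEq, Prod.mk.injEq, and_true]
    omega
  linarith

/-- **two lines and a rung**: incongruent ground states -/
theorem h_incongruent (ν : Measure ℝ) [IsProbabilityMeasure ν]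
    (h : ∀ᵐ x ∂ν, 1 ≤ |x| ∧ |x| < 2) :
    ∀ᵐ J ∂(PP fun _ : Option (ℤ × Bool) => ν), ∃ σ τ, GS ha hb Set.univ J σ ∧
      GS ha hb Set.univ J τ ∧ τ ≠ σ ∧ τ ≠ -σ := by
  have h1 : ∀ᵐ J ∂(PP fun _ : Option (ℤ × Bool) => ν), ∀ e, 1 ≤ |J e| ∧ |J e| < 2 := by
    rw [ae_all_iff]
    intro e
    have h2 : (PP fun _ : Option (ℤ × Bool) => ν).map (fun J => J e) = ν := by
      unfold PP
      exact Measure.infinitePi_map_eval (fun _ : Option (ℤ × Bool) => ν) e
    rw [← h2] at h
    exact ae_of_ae_map (measurable_pi_apply e).aemeasurable h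
  filter_upwards [h1] with J hJ
  have hsg : ∀ e, ∃ g : ℝ, (g = 1 ∨ g = -1) ∧ 0 < J e * g := by
    intro e
    have h2 := (hJ e).1
    rcases abs_cases (J e) with ⟨h3, h4⟩ | ⟨h3, h4⟩
    · exact ⟨1, Or.inl rfl, by linarith⟩
    · exact ⟨-1, Or.inr rfl, by linarith⟩
  choose g hg1 hg2 using hsg
  choose f hf1 hf0 hf using fun s : Bool => line_exists (fun i => g (some (i, s)))
    (fun i => hg1 _)
  have key : ∀ c : ℝ, (c = 1 ∨ c = -1) → GS ha hb Set.univ J
      (fun x => (if x.2 then c else 1) * f x.2 x.1) := by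
    intro c hc
    have hcc : c * c = 1 := by rcases hc with h2 | h2 <;> rw [h2] <;> norm_num
    refine h_gs hJ ?_ ?_
    · rintro ⟨i, s⟩
      cases s
      · simpa using hf1 false i
      · rcases hc with rfl | rfl <;> rcases hf1 true i with h2 | h2 <;> simp [h2]
    · rintro ⟨i, s⟩
      have h2 := hf s i
      have h3 := hg2 (some (i, s))
      rw [← h2] at h3
      cases s
      · simpa using h3
      · simp only [if_true]
        calc 0 < J (some (i, true)) * (f true i * f true (i + 1)) := h3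
          _ = J (some (i, true)) * (c * f true i * (c * f true (i + 1))) := by
            linear_combination (-(J (some (i, true)) * (f true i * f true (i + 1)))) * hcc
  refine ⟨_, _, key 1 (Or.inl rfl), key (-1) (Or.inr rfl), fun hc => ?_, fun hc => ?_⟩
  · have h2 := congrFun hc (0, true)
    simp only [if_true, hf0] at h2
    norm_num at h2
  · have h2 := congrFun hc (0, false)
    simp only [Pi.neg_apply, hf0] at h2
    norm_num at h2

end Pool.Agent.Q233.WC
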