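import Pool.Agent.Q233.WC.Num
import Pool.Agent.TH761.EB.Pr

/-!
# Horns: connectedness, columns of bonds, uniqueness
-/

set_option autoImplicit false

open MeasureTheory ProbabilityTheory Filter Topology Pool.Agent.TH761.EB
open scoped ENNReal

namespace Pool.Agent.Q233.WC

variable {k : ℕ} {w : ℕ → ℕ}

lemma horn_conn (S : Set (Fin (k + 1) → ℤ)) (hS : S ⊆ horn k w)
    (h1 : S.Nonempty) (h2 : (horn k w \ S).Nonempty) : (cut aa bb (horn k w) S).Nonempty := by
  classical
  by_contra hc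
  rw [Set.not_nonempty_iff_eq_empty] at hc
  have hb : ∀ e, aa e ∈ horn k w → bb e ∈ horn k w → (aa e ∈ S ↔ bb e ∈ S) := by
    intro e ha hb
    by_contra hne
    have : e ∈ cut aa bb (horn k w) S := by
      by_cases h3 : aa e ∈ S
      · by_cases h4 : bb e ∈ S
        · exact absurd (iff_of_true h3 h4) hne
        · exact Or.inl ⟨h3, hb, h4⟩
      · by_cases h4 : bb e ∈ S
        · exact Or.inr ⟨h4, ha, h3⟩
        · exact absurd (iff_of_false h3 h4) hne
    rw [hc] at this
    exact this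
  have col : ∀ n : ℕ, ∀ y y' : Bx k (w n), (pt (n : ℤ) y ∈ S ↔ pt (n : ℤ) y' ∈ S) := by
    intro n y y'
    have h3 := bx_conn (fun y : Bx k (w n) => if pt (n : ℤ) y ∈ S then (1 : ℝ) else 0)
      (fun p => by
        have h4 := hb (ph ((n : ℤ), (Sum.inr p : Bx k (w n) ⊕ Bi k (w n))))
          (by rw [aa_r]; exact mem_horn (by positivity) (by simp) _)
          (by rw [bb_r]; exact mem_horn (by positivity) (by simp) _)
        rw [aa_r, bb_r] at h4
        simp only [h4]) y y'
    by_cases h5 : pt (n : ℤ) y ∈ S <;> by_cases h6 : pt (n : ℤ) y' ∈ S <;> simp_all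
  have hcol : ∀ v ∈ horn k w, (v ∈ S ↔ cen k (v 0) ∈ S) := by
    intro v hv
    obtain ⟨n, hn⟩ := Int.eq_ofNat_of_zero_le hv.1
    have e1 : pt (v 0) (pr (w n) v) = v := horn_pt hv (by rw [hn]; simp)
    have hcm := cen_mem (k := k) w hv.1
    have e2 : pt (cen k (v 0) 0) (pr (w n) (cen k (v 0))) = cen k (v 0) :=
      horn_pt hcm (by change w (v 0).toNat = w n; rw [hn]; simp)
    have h3 := col n (pr (w n) v) (pr (w n) (cen k (v 0)))
    rw [← hn] at h3
    rw [e1] at h3
    change v ∈ S ↔ pt (cen k (v 0) 0) (pr (w n) (cen k (v 0))) ∈ S at h3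
    rw [e2] at h3
    exact h3
  have hstep : ∀ n : ℕ, (cen k (n : ℤ) ∈ S ↔ cen k 0 ∈ S) := by
    intro n
    induction n with
    | zero => simp
    | succ n ih =>
      rw [← ih]
      have e1 : bb (cen k (n : ℤ), (0 : Fin (k + 1))) = cen k ((n : ℤ) + 1) := by
        funext i
        refine Fin.cases ?_ (fun j => ?_) i
        · simp [bb, cen]
        · simp [bb, cen]
      have h3 := hb (cen k (n : ℤ), (0 : Fin (k + 1))) (cen_mem w (by positivity))
        (by rw [e1]; exact cen_mem w (by positivity))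
      rw [e1] at h3
      push_cast
      exact h3.symm
  have hall : ∀ v ∈ horn k w, (v ∈ S ↔ cen k 0 ∈ S) := by
    intro v hv
    obtain ⟨n, hn⟩ := Int.eq_ofNat_of_zero_le hv.1
    rw [hcol v hv, hn]
    exact hstep n
  obtain ⟨x, hx⟩ := h1
  obtain ⟨y, hy, hy2⟩ := h2
  exact hy2 ((hall y hy).2 ((hall x (hS hx)).1 hx))

lemma horn_inf : (horn k w).Infinite := by
  refine Set.infinite_of_injective_forall_mem (f := fun n : ℕ => cen k (n : ℤ)) ?_
    (fun n => cen_mem w (by positivity))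
  intro m n h
  have h2 := congrFun h 0
  simpa [cen] using h2

/-- the bonds between column `n` and the next one -/
noncomputable def colB (k : ℕ) (w : ℕ → ℕ) (n : ℕ) : Finset ((Fin (k + 1) → ℤ) × Fin (k + 1)) :=
  open Classical in (Finset.univ : Finset (Bx k (w n))).image fun y => (pt (n : ℤ) y, 0)

lemma colB_card (n : ℕ) : (colB k w n).card ≤ (2 * w n + 1) ^ k := by
  classical
  unfold colB
  refine Finset.card_image_le.trans ?_
  rw [Finset.card_univ, card_Bx]

lemma colB_cut (hw : Monotone w) (n : ℕ) :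
    (colB k w n : Set _) = cut aa bb (horn k w) ((horn_fin (k := k) w n).toFinset) := by
  classical
  ext e
  rw [Finset.mem_coe]
  unfold colB cut
  simp only [Finset.mem_image, Finset.mem_univ, true_and, Set.mem_ofPred_eq, Finset.mem_coe,
    Set.Finite.mem_toFinset, Set.mem_inter_iff, Set.mem_diff]
  constructor
  · rintro ⟨y, rfl⟩
    left
    have h1 : (pt (n : ℤ) y) ∈ horn k w := mem_horn (by positivity) (by simp) y
    have h2 : bb (pt (n : ℤ) y, (0 : Fin (k + 1))) = pt ((n : ℤ) + 1) y :=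
      bb_l (n : ℤ) y
    refine ⟨⟨h1, ?_⟩, ?_, ?_⟩
    · simp [aa]
    · rw [h2]
      refine ⟨by simp only [pt_zero]; positivity, fun i => ?_⟩
      rw [pt_succ, pt_zero]
      have h3 := h1.2 i
      rw [pt_succ, pt_zero] at h3
      refine h3.trans ?_
      exact_mod_cast hw (by omega)
    · rw [h2]
      rintro ⟨-, h3⟩
      rw [pt_zero] at h3
      omega
  · rintro (⟨⟨h1, h2⟩, h3, h4⟩ | ⟨⟨h1, h2⟩, h3, h4⟩)
    · have h5 : ¬ bb e 0 ≤ n := fun h => h4 ⟨h3, h⟩
      have h6 : aa e 0 = n := by rcases bb_zero e with h | h <;> omega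
      obtain ⟨v, i⟩ := e
      have hv0 : v 0 = n := h6
      refine ⟨pr (w n) v, ?_⟩
      have e1 : pt (v 0) (pr (w n) v) = v := horn_pt h1 (by rw [hv0]; simp)
      rw [hv0] at e1
      rw [e1]
      have hi : i = 0 := by
        by_contra hne
        apply h5
        have : bb (v, i) 0 = v 0 := by simp [bb, Ne.symm hne]
        rw [this]
        omega
      rw [hi]
    · exfalso
      apply h4
      refine ⟨h3, ?_⟩
      have h2' : bb e 0 ≤ n := h2
      have : aa e 0 ≤ bb e 0 := by rcases bb_zero e with h | h <;> omega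
      change aa e 0 ≤ n
      omega

/-- **horns**: uniqueness for `(2 w + 1) ^ k log (2 w + 2) ≤ c log n` -/
theorem horn_unique (ν : Measure ℝ) [IsProbabilityMeasure ν] (hat : ∀ x, ν {x} = 0)
    {κ c0 : ℝ} (hκ : 0 < κ) (hc0 : 0 < c0)
    (hν : ∀ t : ℝ, 0 < t → t ≤ 1 → c0 * t ^ κ ≤ ν.real (Set.Icc (-t) t)) (hw : Monotone w)
    (h : ∀ᶠ n : ℕ in atTop,
      (2 * (w n : ℝ) + 1) ^ k * Real.log (2 * w n + 2) ≤ 1 / (2 * κ * (k + 1)) * Real.log n) :
    ∀ᵐ J ∂(PP fun _ : (Fin (k + 1) → ℤ) × Fin (k + 1) => ν),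
      ∃ σ, {ρ | GS aa bb (horn k w) J ρ} = {σ, -σ} := by
  classical
  refine pair_ae (fun _ => ν) (fun _ => hat) horn_fib horn_inf horn_conn
    (B := fun n => (horn_fin (k := k) w n).toFinset) (C := fun n => colB k w n) ?_ ?_
    (fun n => colB_cut hw n) ?_ ?_
  · intro n x hx
    rw [Finset.mem_coe, Set.Finite.mem_toFinset] at hx
    exact hx.1
  · intro x hx
    filter_upwards [eventually_ge_atTop (x 0).toNat] with n hn
    rw [Set.Finite.mem_toFinset]
    refine ⟨hx, ?_⟩
    change x 0 ≤ n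
    omega
  · intro m n hmn
    rw [Function.onFun, Finset.disjoint_left]
    intro e he he2
    unfold colB at he he2
    rw [Finset.mem_image] at he he2
    obtain ⟨y, -, rfl⟩ := he
    obtain ⟨y', -, h2⟩ := he2
    have h3 := congrArg (fun e : (Fin (k + 1) → ℤ) × Fin (k + 1) => e.1 0) h2
    simp only [pt_zero] at h3
    exact hmn (by exact_mod_cast h3.symm)
  · intro δ hδ
    set δ' : ℝ := min δ 1 with hδ'
    have hδ0 : 0 < δ' := by positivity
    have hδ1 : δ' ≤ 1 := min_le_right _ _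
    set n : ℕ → ℕ := fun j => (2 * w j + 1) ^ k with hn
    have hn1 : ∀ j, 1 ≤ n j := fun j => Nat.one_le_pow _ _ (by omega)
    have hg : ∀ᶠ j : ℕ in atTop, (n j : ℝ) * Real.log ((n j : ℝ) + 1) ≤ 1 / (2 * κ) * Real.log j := by
      filter_upwards [h] with j hj
      have e1 : ((n j : ℕ) : ℝ) = (2 * (w j : ℝ) + 1) ^ k := by
        simp only [hn]; push_cast; ring
      rw [e1]
      have hp : (1 : ℝ) ≤ 2 * (w j : ℝ) + 2 := by
        have : (0 : ℝ) ≤ w j := by positivity
        linarith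
      have h3 : Real.log ((2 * (w j : ℝ) + 1) ^ k + 1) ≤ (k + 1) * Real.log (2 * w j + 2) := by
        have h4 : (2 * (w j : ℝ) + 1) ^ k + 1 ≤ (2 * (w j : ℝ) + 2) ^ (k + 1) := by
          have h5 : (2 * (w j : ℝ) + 1) ^ k ≤ (2 * (w j : ℝ) + 2) ^ k := by
            gcongr
            linarith
          have h6 : (1 : ℝ) ≤ (2 * (w j : ℝ) + 2) ^ k := one_le_pow₀ hp
          have h7 : (0 : ℝ) ≤ w j := by positivity
          calc (2 * (w j : ℝ) + 1) ^ k + 1 ≤ (2 * (w j : ℝ) + 2) ^ k + (2 * (w j : ℝ) + 2) ^ k := by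
                linarith
            _ = (2 * (w j : ℝ) + 2) ^ k * 2 := by ring
            _ ≤ (2 * (w j : ℝ) + 2) ^ k * (2 * (w j : ℝ) + 2) := by
                gcongr
                linarith
            _ = _ := by ring
        calc Real.log ((2 * (w j : ℝ) + 1) ^ k + 1) ≤ Real.log ((2 * (w j : ℝ) + 2) ^ (k + 1)) :=
              Real.log_le_log (by positivity) h4
          _ = (k + 1) * Real.log (2 * w j + 2) := by
              rw [Real.log_pow]; push_cast; ring
      calc (2 * (w j : ℝ) + 1) ^ k * Real.log ((2 * (w j : ℝ) + 1) ^ k + 1)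
          ≤ (2 * (w j : ℝ) + 1) ^ k * ((k + 1) * Real.log (2 * w j + 2)) := by gcongr
        _ = (k + 1) * ((2 * (w j : ℝ) + 1) ^ k * Real.log (2 * w j + 2)) := by ring
        _ ≤ (k + 1) * (1 / (2 * κ * (k + 1)) * Real.log j) := by gcongr
        _ = 1 / (2 * κ) * Real.log j := by field_simp
    have hdiv := num2 ν hκ hc0 hν (c := 1 / (2 * κ)) (by positivity)
      (by rw [mul_one_div_cancel (by positivity)]) hn1 hg hδ0 hδ1
    rw [eq_top_iff, ← hdiv]
    refine ENNReal.tsum_le_tsum fun j => ?_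
    have hn0 : (0 : ℝ) < n j := by exact_mod_cast hn1 j
    have h2 := wt_ge (fun _ : (Fin (k + 1) → ℤ) × Fin (k + 1) => ν) (colB k w j) (δ := δ)
      (η := δ' / n j) (by
        have h3 : ((colB k w j).card : ℝ) ≤ n j := by exact_mod_cast colB_card j
        calc ((colB k w j).card : ℝ) * (δ' / n j) ≤ n j * (δ' / n j) := by gcongr
          _ = δ' := by field_simp
          _ ≤ δ := min_le_left _ _)
    refine le_trans ?_ h2
    rw [Finset.prod_const]
    exact pow_le_pow_right_of_le_one' prob_le_one (colB_card j)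

end Pool.Agent.Q233.WC
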