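import Pool.Agent.Q233.WC.Exi

/-!
# Uniqueness of the ground state when infinitely many boundaries are weak
-/

set_option autoImplicit false

open MeasureTheory ProbabilityTheory Filter Topology Pool.Agent.TH761.EB
open scoped ENNReal

namespace Pool.Agent.Q233.WC

variable {X E : Type} {a b : E → X} {R : Set X}

lemma exists_inner (hfib : ∀ x, {e | a e = x ∨ b e = x}.Finite) (B : Finset X) :
    ∃ I : Finset E, ∀ e, e ∈ I ↔ a e ∈ B ∧ b e ∈ B := by
  have h : {e | a e ∈ B ∧ b e ∈ B}.Finite :=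
    (B.finite_toSet.biUnion fun x _ => hfib x).subset fun e he =>
      Set.mem_biUnion he.1 (Or.inl rfl)
  exact ⟨h.toFinset, by simp⟩

variable (μ : E → Measure ℝ) [∀ e, IsProbabilityMeasure (μ e)]

theorem agree_ae (hat : ∀ e x, μ e {x} = 0) (hfib : ∀ x, {e | a e = x ∨ b e = x}.Finite)
    {B : ℕ → Finset X} {C : ℕ → Finset E}
    (hBR : ∀ k, (B k : Set X) ⊆ R) (hex : ∀ x ∈ R, ∀ᶠ k in atTop, x ∈ B k)
    (hC : ∀ k, (C k : Set E) = cut a b R (B k)) (hd : Pairwise (Function.onFun Disjoint C))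
    (hw : ∀ δ : ℝ, 0 < δ → ∑' k, PP μ {J | wt (C k) J ≤ δ} = ∞)
    {e0 : E} (ha : a e0 ∈ R) (hb : b e0 ∈ R) :
    ∀ᵐ J ∂(PP μ), ∀ σ τ, GS a b R J σ → GS a b R J τ →
      σ (a e0) * σ (b e0) = τ (a e0) * τ (b e0) := by
  classical
  choose I hI using fun k => exists_inner (a := a) (b := b) hfib (B k)
  obtain ⟨k0, hk0⟩ := eventually_atTop.1 ((hex _ ha).and (hex _ hb))
  set t : ℕ → (E → ℝ) → ℝ := fun k J =>
    (M a b e0 (B k) (I k) (-1) J - M a b e0 (B k) (I k) 1 J) / 2 with ht
  have htm : ∀ k, Measurable (t k) := fun k =>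
    ((M_meas e0 (B k) (I k) (-1)).sub (M_meas e0 (B k) (I k) 1)).div_const 2
  have htu : ∀ k J v, t k (Function.update J e0 v) = t k J := by
    intro k J v
    simp only [ht, M_up]
  have he0C : ∀ k, k0 ≤ k → e0 ∉ C k := by
    intro k hk h
    have h2 : e0 ∈ cut a b R (B k) := by rw [← hC]; exact_mod_cast h
    rcases h2 with h1 | h1
    · exact h1.2.2 (by exact_mod_cast (hk0 k hk).2)
    · exact h1.2.2 (by exact_mod_cast (hk0 k hk).1)
  rw [ae_iff]
  set D : Set (E → ℝ) := {J | ¬ ∀ σ τ, GS a b R J σ → GS a b R J τ →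
      σ (a e0) * σ (b e0) = τ (a e0) * τ (b e0)} with hD
  by_contra hne
  obtain ⟨δ, hδ, hball⟩ := small_ball (μ e0) (hat e0) (ε := PP μ D / 2)
    (ENNReal.half_pos hne)
  set A : Set (E → ℝ) := {J | ∃ k, k0 ≤ k ∧ wt (C k) J ≤ δ ∧
    (∀ j, k0 ≤ j → j < k → δ < wt (C j) J) ∧ |J e0 - t k J| ≤ δ} with hA
  have hAm : MeasurableSet A := by
    have hT : ∀ k, Measurable fun J : E → ℝ => wt (C k) J ≤ δ :=
      fun k => measurableSet_setOf.1 (wt_set (C k) δ)
    have hT2 : ∀ k, Measurable fun J : E → ℝ => δ < wt (C k) J :=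
      fun k => measurableSet_setOf.1 (measurableSet_lt measurable_const (wt_meas (C k)))
    have hT3 : ∀ k, Measurable fun J : E → ℝ => |J e0 - t k J| ≤ δ := fun k =>
      measurableSet_setOf.1 (measurableSet_le
        (((measurable_pi_apply e0).sub (htm k)).abs) measurable_const)
    apply measurableSet_setOf.2
    exact Measurable.exists fun k => measurable_const.and ((hT k).and
      ((Measurable.forall fun j => measurable_const.imp (measurable_const.imp (hT2 j))).and
        (hT3 k)))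
  have hsub : D ⊆ A ∪ {J | ¬ ∃ k, k0 ≤ k ∧ wt (C k) J ≤ δ} := by
    intro J hJ
    by_cases hex2 : ∃ k, k0 ≤ k ∧ wt (C k) J ≤ δ
    · left
      rw [hD, Set.mem_ofPred_eq] at hJ
      push Not at hJ
      obtain ⟨σ, τ, hσ, hτ, hne2⟩ := hJ
      have h1 := Nat.find_spec hex2
      refine ⟨Nat.find hex2, h1.1, h1.2, ?_, ?_⟩
      · intro j hj hj2
        have h2 := Nat.find_min hex2 hj2
        by_contra hc
        exact h2 ⟨hj, not_lt.1 hc⟩
      · have h3 := hk0 _ h1.1
        exact (window hσ hτ (hBR _) (hC _) (hI _) h3.1 h3.2 hne2).trans h1.2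
    · right
      exact hex2
  have hAle : PP μ A ≤ PP μ D / 2 := by
    rw [← (mp_up μ e0).measure_preimage hAm.nullMeasurableSet,
      Measure.prod_apply ((meas_up e0) hAm)]
    calc ∫⁻ J, (μ e0) (Prod.mk J ⁻¹'
          ((fun p : (E → ℝ) × ℝ => Function.update p.1 e0 p.2) ⁻¹' A)) ∂(PP μ)
        ≤ ∫⁻ _, PP μ D / 2 ∂(PP μ) := by
          refine lintegral_mono fun J => ?_
          by_cases hex2 : ∃ k, k0 ≤ k ∧ wt (C k) J ≤ δ ∧
              ∀ j, k0 ≤ j → j < k → δ < wt (C j) J
          · obtain ⟨k, hk, hk1, hk2⟩ := hex2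
            refine le_trans (measure_mono ?_) (hball (t k J))
            rintro v ⟨k', hk', hk1', hk2', h3⟩
            simp only [htu, Function.update_self] at h3
            rw [wt_up (he0C k' hk')] at hk1'
            have hkk : k' = k := by
              rcases lt_trichotomy k' k with h4 | h4 | h4
              · exact absurd hk1' (not_le.2 (hk2 k' hk' h4))
              · exact h4
              · have h5 := hk2' k hk h4
                simp only at h5
                rw [wt_up (he0C k hk)] at h5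
                exact absurd hk1 (not_le.2 h5)
            subst hkk
            rw [abs_le] at h3
            exact ⟨by linarith [h3.1], by linarith [h3.2]⟩
          · have hemp : Prod.mk J ⁻¹'
                ((fun p : (E → ℝ) × ℝ => Function.update p.1 e0 p.2) ⁻¹' A) = ∅ := by
              rw [Set.eq_empty_iff_forall_notMem]
              rintro v ⟨k', hk', hk1', hk2', h3⟩
              apply hex2
              simp only at hk1'
              rw [wt_up (he0C k' hk')] at hk1'
              refine ⟨k', hk', hk1', fun j hj hj2 => ?_⟩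
              have h5 := hk2' j hj hj2
              simp only at h5
              rwa [wt_up (he0C j hj)] at h5
            rw [hemp, measure_empty]
            exact bot_le
      _ = PP μ D / 2 := by rw [lintegral_const, measure_univ, mul_one]
  have hN : PP μ {J | ¬ ∃ k, k0 ≤ k ∧ wt (C k) J ≤ δ} = 0 :=
    ae_iff.1 (often μ hd (hw δ hδ) k0)
  have hfin : PP μ D ≤ PP μ D / 2 := by
    calc PP μ D ≤ PP μ (A ∪ {J | ¬ ∃ k, k0 ≤ k ∧ wt (C k) J ≤ δ}) := measure_mono hsub
      _ ≤ PP μ A + PP μ {J | ¬ ∃ k, k0 ≤ k ∧ wt (C k) J ≤ δ} := measure_union_le _ _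
      _ ≤ PP μ D / 2 := by rw [hN, add_zero]; exact hAle
  exact absurd hfin (not_le.2 (ENNReal.half_lt_self hne (measure_ne_top _ _)))

/-- **uniqueness**: exactly one pair of ground states -/
theorem pair_ae [Countable E] (hat : ∀ e x, μ e {x} = 0)
    (hfib : ∀ x, {e | a e = x ∨ b e = x}.Finite) (hinf : R.Infinite)
    (hconn : ∀ S : Set X, S ⊆ R → S.Nonempty → (R \ S).Nonempty → (cut a b R S).Nonempty)
    {B : ℕ → Finset X} {C : ℕ → Finset E}
    (hBR : ∀ k, (B k : Set X) ⊆ R) (hex : ∀ x ∈ R, ∀ᶠ k in atTop, x ∈ B k)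
    (hC : ∀ k, (C k : Set E) = cut a b R (B k)) (hd : Pairwise (Function.onFun Disjoint C))
    (hw : ∀ δ : ℝ, 0 < δ → ∑' k, PP μ {J | wt (C k) J ≤ δ} = ∞) :
    ∀ᵐ J ∂(PP μ), ∃ σ, {ρ | GS a b R J ρ} = {σ, -σ} := by
  have h1 : ∀ᵐ J ∂(PP μ), ∀ e : E, a e ∈ R → b e ∈ R → ∀ σ τ, GS a b R J σ → GS a b R J τ →
      σ (a e) * σ (b e) = τ (a e) * τ (b e) := by
    rw [ae_all_iff]
    intro e
    by_cases ha : a e ∈ R
    · by_cases hb : b e ∈ R
      · filter_upwards [agree_ae μ hat hfib hBR hex hC hd hw ha hb] with J hJ _ _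
        exact hJ
      · exact Filter.Eventually.of_forall fun J _ h => absurd h hb
    · exact Filter.Eventually.of_forall fun J h => absurd h ha
  filter_upwards [h1, gen_ae μ hat] with J hJ hgen
  have hfront : ∀ D : Finset X, D.Nonempty → (D : Set X) ⊆ R → ∃ e, e ∈ cut a b R D := by
    intro D hD hDR
    refine hconn D hDR (by exact_mod_cast hD) ?_
    by_contra hc
    rw [Set.not_nonempty_iff_eq_empty, Set.diff_eq_empty] at hc
    exact hinf (D.finite_toSet.subset hc)
  obtain ⟨σ, hσ⟩ := exists_gs hfib hfront hgen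
  refine ⟨σ, ?_⟩
  ext τ
  simp only [Set.mem_ofPred_eq, Set.mem_insert_iff, Set.mem_singleton_iff]
  constructor
  swap
  · rintro (rfl | rfl)
    · exact hσ
    · exact hσ.neg
  intro hτ
  have hτpm := hτ.1.1
  have hσpm := hσ.1.1
  by_cases hS : {x ∈ R | σ x = τ x}.Nonempty
  · left
    have hall : ¬ (R \ {x ∈ R | σ x = τ x}).Nonempty := by
      intro hne
      obtain ⟨e, he⟩ := hconn _ (fun x hx => hx.1) hS hne
      rcases he with ⟨⟨h2, h3⟩, h4, h5⟩ | ⟨⟨h2, h3⟩, h4, h5⟩
      · have h6 := hJ e h2 h4 σ τ hσ hτ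
        rw [h3] at h6
        apply h5
        refine ⟨h4, ?_⟩
        have h7 : τ (a e) ≠ 0 := by rcases hτpm _ h2 with h | h <;> rw [h] <;> norm_num
        exact mul_left_cancel₀ h7 h6
      · have h6 := hJ e h4 h2 σ τ hσ hτ
        rw [h3] at h6
        apply h5
        refine ⟨h4, ?_⟩
        have h7 : τ (b e) ≠ 0 := by rcases hτpm _ h2 with h | h <;> rw [h] <;> norm_num
        exact mul_right_cancel₀ h7 h6
    funext x
    by_cases hx : x ∈ R
    · by_contra hc
      exact hall ⟨x, hx, fun h => hc h.2.symm⟩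
    · rw [hτ.1.2 x hx, hσ.1.2 x hx]
  · right
    funext x
    by_cases hx : x ∈ R
    · have hc : σ x ≠ τ x := fun h => hS ⟨x, hx, h⟩
      rw [Pi.neg_apply]
      rcases hτpm x hx with h2 | h2 <;> rcases hσpm x hx with h3 | h3
      · exact absurd (h3.trans h2.symm) hc
      · rw [h2, h3]; norm_num
      · rw [h2, h3]
      · exact absurd (h3.trans h2.symm) hc
    · rw [Pi.neg_apply, hτ.1.2 x hx, hσ.1.2 x hx, neg_zero]

end Pool.Agent.Q233.WC
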