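import Pool.Agent.Q233.WC.Cuts

/-!
# Slowly growing boundaries: divergence of the sum of the probabilities
-/

set_option autoImplicit false

open MeasureTheory ProbabilityTheory Filter Topology
open scoped ENNReal

namespace Pool.Agent.Q233.WC

/-- the numerical estimate: `n (κ log n + A) ≤ log k + C` -/
lemma num1 {κ c A : ℝ} (hκ : 0 < κ) (hc : 0 < c) (hcκ : 2 * κ * c ≤ 1) (hA : 0 ≤ A) {n L : ℝ}
    (hn : 1 ≤ n) (h : n * Real.log (n + 1) ≤ c * L) :
    n * (κ * Real.log n + A) ≤ L + Real.exp (2 * c * A) * A := by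
  have hl0 : 0 ≤ Real.log (n + 1) := Real.log_nonneg (by linarith)
  have hL : 0 ≤ L := by
    by_contra hneg
    push Not at hneg
    have h2 : c * L < 0 := mul_neg_of_pos_of_neg hc hneg
    have h3 : 0 ≤ n * Real.log (n + 1) := by positivity
    linarith
  have h1 : n * (κ * Real.log n) ≤ L / 2 := by
    have h2 : Real.log n ≤ Real.log (n + 1) := Real.log_le_log (by linarith) (by linarith)
    calc n * (κ * Real.log n) ≤ n * (κ * Real.log (n + 1)) := by gcongr
      _ = κ * (n * Real.log (n + 1)) := by ring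
      _ ≤ κ * (c * L) := by gcongr
      _ = (2 * κ * c) * (L / 2) := by ring
      _ ≤ 1 * (L / 2) := by gcongr
      _ = L / 2 := one_mul _
  have h2 : n * A ≤ L / 2 + Real.exp (2 * c * A) * A := by
    by_cases h3 : 2 * c * A ≤ Real.log (n + 1)
    · have h4 : n * A ≤ L / 2 := by
        have h5 : n * (2 * c * A) ≤ n * Real.log (n + 1) := by gcongr
        have h6 : c * (n * A) ≤ c * (L / 2) := by linarith
        exact le_of_mul_le_mul_left h6 hc
      have h7 : 0 ≤ Real.exp (2 * c * A) * A := by positivity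
      linarith
    · push Not at h3
      have h4 : n + 1 < Real.exp (2 * c * A) := (Real.log_lt_iff_lt_exp (by linarith)).1 h3
      have h5 : n * A ≤ Real.exp (2 * c * A) * A := by
        apply mul_le_mul_of_nonneg_right _ hA
        linarith
      linarith
  calc n * (κ * Real.log n + A) = n * (κ * Real.log n) + n * A := by ring
    _ ≤ L + Real.exp (2 * c * A) * A := by linarith

/-- the sum of the probabilities diverges -/
theorem num2 (ν : Measure ℝ) [IsProbabilityMeasure ν] {κ c0 c : ℝ} (hκ : 0 < κ) (hc0 : 0 < c0)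
    (hν : ∀ t : ℝ, 0 < t → t ≤ 1 → c0 * t ^ κ ≤ ν.real (Set.Icc (-t) t))
    (hc : 0 < c) (hcκ : 2 * κ * c ≤ 1) {n : ℕ → ℕ} (hn : ∀ k, 1 ≤ n k)
    (h : ∀ᶠ k : ℕ in atTop, (n k : ℝ) * Real.log ((n k : ℝ) + 1) ≤ c * Real.log k) {δ : ℝ}
    (hδ : 0 < δ) (hδ1 : δ ≤ 1) :
    ∑' k, (ν (Set.Icc (-(δ / n k)) (δ / n k))) ^ (n k) = ∞ := by
  set A : ℝ := |-Real.log c0 - κ * Real.log δ| with hA
  have hA0 : 0 ≤ A := abs_nonneg _
  obtain ⟨K, hK⟩ := eventually_atTop.1 (h.and (eventually_ge_atTop 1))
  set C : ℝ := Real.exp (2 * c * A) * A with hC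
  have key : ∀ k, K ≤ k → Real.exp (-C) * (1 / (k : ℝ)) ≤
      ((ν (Set.Icc (-(δ / n k)) (δ / n k))) ^ (n k)).toReal := by
    intro k hk
    have hk1 : (1 : ℝ) ≤ k := by exact_mod_cast (hK k hk).2
    have hn1 : (1 : ℝ) ≤ n k := by exact_mod_cast hn k
    have hn0 : (0 : ℝ) < n k := by linarith
    have ht0 : 0 < δ / n k := by positivity
    have ht1 : δ / n k ≤ 1 := by rw [div_le_one hn0]; linarith
    have h1 := hν _ ht0 ht1
    have h2 := num1 hκ hc hcκ hA0 hn1 (hK k hk).1
    rw [ENNReal.toReal_pow]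
    have h3 : Real.exp (-(κ * Real.log (n k) + A)) ≤ (ν (Set.Icc (-(δ / n k)) (δ / n k))).toReal := by
      refine le_trans ?_ h1
      rw [Real.rpow_def_of_pos ht0, show c0 * Real.exp (Real.log (δ / n k) * κ) =
        Real.exp (Real.log c0 + Real.log (δ / n k) * κ) from by rw [Real.exp_add, Real.exp_log hc0]]
      apply Real.exp_le_exp.2
      rw [Real.log_div hδ.ne' hn0.ne']
      have h4 := le_abs_self (-Real.log c0 - κ * Real.log δ)
      nlinarith [h4]
    calc Real.exp (-C) * (1 / (k : ℝ)) = Real.exp (-(Real.log k + C)) := by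
          rw [neg_add, Real.exp_add, Real.exp_neg (Real.log k), Real.exp_log (by linarith)]
          ring
      _ ≤ Real.exp (-(n k * (κ * Real.log (n k) + A))) := by
          apply Real.exp_le_exp.2
          linarith
      _ = (Real.exp (-(κ * Real.log (n k) + A))) ^ (n k) := by
          rw [← Real.exp_nat_mul]
          congr 1
          ring
      _ ≤ _ := by gcongr
  by_contra hne
  have hs := ENNReal.summable_toReal hne
  have hs2 : Summable fun k : ℕ => Real.exp (-C) * (1 / ((k + K : ℕ) : ℝ)) := by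
    refine Summable.of_nonneg_of_le (fun k => by positivity) (fun k => key (k + K) (by omega))
      ((summable_nat_add_iff K).2 hs)
  have hs3 : Summable fun k : ℕ => (1 / ((k + K : ℕ) : ℝ)) := by
    have h1 := hs2.mul_left (Real.exp C)
    refine h1.congr fun k => ?_
    rw [← mul_assoc, ← Real.exp_add, add_neg_cancel, Real.exp_zero, one_mul]
  exact Real.not_summable_one_div_natCast ((summable_nat_add_iff (f := fun k : ℕ => 1 / (k : ℝ)) K).1 hs3)

end Pool.Agent.Q233.WC
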