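import Pool.Agent.Q233.WC.Cuts
import Pool.Agent.TH761.EB.Pr

/-!
# Couplings on `ℤ^d` which decay: uniqueness
-/

set_option autoImplicit false

open MeasureTheory ProbabilityTheory Filter Topology Pool.Agent.TH761.EB
open scoped ENNReal

namespace Pool.Agent.Q233.WC

section markov

variable {E : Type} (μ : E → Measure ℝ) [∀ e, IsProbabilityMeasure (μ e)]

lemma map_eval (e : E) : (PP μ).map (fun J => J e) = μ e := by
  unfold PP
  exact Measure.infinitePi_map_eval μ e

lemma int_eval {e : E} (h : Integrable (fun x : ℝ => x) (μ e)) :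
    Integrable (fun J : E → ℝ => |J e|) (PP μ) ∧ ∫ J, |J e| ∂(PP μ) = ∫ x, |x| ∂(μ e) := by
  have h1 : Integrable (fun x : ℝ => |x|) (μ e) := h.abs
  constructor
  · rw [← map_eval μ e] at h1
    exact h1.comp_measurable (measurable_pi_apply e)
  · rw [← map_eval μ e, integral_map (measurable_pi_apply e).aemeasurable
      (by fun_prop)]

/-- Markov's inequality for the strength of a finite set of bonds -/
lemma markov (C : Finset E) (h : ∀ e, Integrable (fun x : ℝ => x) (μ e)) {δ : ℝ} (hδ : 0 < δ)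
    (hs : ∑ e ∈ C, ∫ x, |x| ∂(μ e) ≤ δ / 2) : 2⁻¹ ≤ PP μ {J | wt C J ≤ δ} := by
  have hint : Integrable (wt C : (E → ℝ) → ℝ) (PP μ) := by
    unfold wt
    exact integrable_finset_sum _ fun e _ => (int_eval μ (h e)).1
  have hI : ∫ J, wt C J ∂(PP μ) ≤ δ / 2 := by
    unfold wt
    rw [integral_finset_sum _ fun e _ => (int_eval μ (h e)).1]
    refine le_trans (le_of_eq ?_) hs
    exact Finset.sum_congr rfl fun e _ => (int_eval μ (h e)).2
  have h1 := mul_meas_ge_le_integral_of_nonneg (μ := PP μ) (f := wt C)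
    (Filter.Eventually.of_forall fun J => Finset.sum_nonneg fun e _ => abs_nonneg _) hint δ
  have h2 : (PP μ).real {J | δ ≤ wt C J} ≤ 1 / 2 := by
    have h3 : δ * (PP μ).real {J | δ ≤ wt C J} ≤ δ * (1 / 2) := by
      refine h1.trans (hI.trans (le_of_eq (by ring)))
    exact le_of_mul_le_mul_left h3 hδ
  have h3 : (PP μ).real {J | wt C J ≤ δ} + (PP μ).real {J | wt C J ≤ δ}ᶜ = 1 :=
    probReal_add_probReal_compl (wt_set C δ)
  have h4 : (PP μ).real {J | wt C J ≤ δ}ᶜ ≤ (PP μ).real {J | δ ≤ wt C J} := by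
    refine measureReal_mono fun J hJ => ?_
    rw [Set.mem_compl_iff, Set.mem_ofPred_eq, not_le] at hJ
    exact hJ.le
  have h5 : (1 / 2 : ℝ) ≤ (PP μ).real {J | wt C J ≤ δ} := by linarith
  have h6 := ENNReal.ofReal_le_ofReal h5
  rw [ofReal_measureReal] at h6
  refine le_trans (le_of_eq ?_) h6
  rw [one_div, ENNReal.ofReal_inv_of_pos (by norm_num)]
  norm_num

end markov

variable {k : ℕ}

lemma zd_conn (S : Set (Fin (k + 1) → ℤ)) (h1 : S.Nonempty)
    (h2 : (Set.univ \ S).Nonempty) : (cut aa bb Set.univ S).Nonempty := by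
  classical
  by_contra hc
  rw [Set.not_nonempty_iff_eq_empty] at hc
  have hb : ∀ (v : Fin (k + 1) → ℤ) (i : Fin (k + 1)), (v ∈ S ↔ v + Pi.single i 1 ∈ S) := by
    intro v i
    by_contra hne
    have : (v, i) ∈ cut aa bb Set.univ S := by
      by_cases h3 : v ∈ S
      · by_cases h4 : v + Pi.single i 1 ∈ S
        · exact absurd (iff_of_true h3 h4) hne
        · exact Or.inl ⟨h3, trivial, h4⟩
      · by_cases h4 : v + Pi.single i 1 ∈ S
        · exact Or.inr ⟨h4, trivial, h3⟩
        · exact absurd (iff_of_false h3 h4) hne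
    rw [hc] at this
    exact this
  have hz : ∀ (z : ℤ) (v : Fin (k + 1) → ℤ) (i : Fin (k + 1)),
      (v + Pi.single i z ∈ S ↔ v ∈ S) := by
    intro z v i
    induction z using Int.induction_on with
    | zero => simp
    | succ z ih =>
      have h3 := hb (v + Pi.single i (z : ℤ)) i
      rw [add_assoc, ← Pi.single_add] at h3
      exact h3.symm.trans ih
    | pred z ih =>
      have h3 := hb (v + Pi.single i (-(z : ℤ) - 1)) i
      rw [add_assoc, ← Pi.single_add, sub_add_cancel] at h3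
      exact h3.trans ih
  have hs : ∀ (s : Finset (Fin (k + 1))) (v w : Fin (k + 1) → ℤ),
      (v + ∑ i ∈ s, Pi.single i (w i) ∈ S ↔ v ∈ S) := by
    intro s
    induction s using Finset.induction_on with
    | empty => simp
    | insert i s hi ih =>
      intro v w
      rw [Finset.sum_insert hi, ← add_assoc, ih, hz]
  obtain ⟨x, hx⟩ := h1
  obtain ⟨y, -, hy2⟩ := h2
  apply hy2
  have h3 := (hs Finset.univ x (y - x)).2 hx
  rw [Finset.univ_sum_single] at h3
  simpa using h3

/-- the cube of half side `n` -/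
noncomputable def cube (k : ℕ) (n : ℕ) : Finset (Fin (k + 1) → ℤ) :=
  Fintype.piFinset fun _ => Finset.Icc (-(n : ℤ)) n

lemma mem_cube {n : ℕ} {v : Fin (k + 1) → ℤ} : v ∈ cube k n ↔ ∀ i, |v i| ≤ (n : ℤ) := by
  unfold cube
  rw [Fintype.mem_piFinset]
  refine forall_congr' fun i => ?_
  rw [Finset.mem_Icc, abs_le]

lemma cube_mono {m n : ℕ} (h : m ≤ n) : cube k m ⊆ cube k n := by
  intro v hv
  rw [mem_cube] at hv ⊢
  intro i
  exact (hv i).trans (by exact_mod_cast h)

lemma cube_next {n : ℕ} (e : (Fin (k + 1) → ℤ) × Fin (k + 1))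
    (h : e ∈ cut aa bb Set.univ (cube k n : Set (Fin (k + 1) → ℤ))) :
    aa e ∈ cube k (n + 1) ∧ bb e ∈ cube k (n + 1) := by
  classical
  have hstep : ∀ j, |bb e j - aa e j| ≤ 1 := by
    intro j
    unfold bb aa
    by_cases hj : j = e.2
    · subst hj; simp
    · simp [hj]
  rcases h with ⟨h1, -, -⟩ | ⟨h1, -, -⟩
  · rw [Finset.mem_coe, mem_cube] at h1
    refine ⟨mem_cube.2 fun j => (h1 j).trans (by push_cast; omega), mem_cube.2 fun j => ?_⟩
    have h3 := abs_le.1 (h1 j)
    have h4 := abs_le.1 (hstep j)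
    rw [abs_le]
    push_cast
    constructor <;> omega
  · rw [Finset.mem_coe, mem_cube] at h1
    refine ⟨mem_cube.2 fun j => ?_, mem_cube.2 fun j => (h1 j).trans (by push_cast; omega)⟩
    have h3 := abs_le.1 (h1 j)
    have h4 := abs_le.1 (hstep j)
    rw [abs_le]
    push_cast
    constructor <;> omega

/-- **decaying couplings**: uniqueness on `ℤ^d` if the boundaries of the cubes get weak -/
theorem zd_unique (ν : Measure ℝ) [IsProbabilityMeasure ν] (hat : ∀ x, ν {x} = 0)
    (hint : Integrable (fun x : ℝ => x) ν)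
    (c : (Fin (k + 1) → ℤ) × Fin (k + 1) → ℝ) (hc : ∀ e, c e ≠ 0)
    (h : Tendsto (fun n : ℕ => ∑ᶠ e ∈ cut aa bb Set.univ (cube k n : Set (Fin (k + 1) → ℤ)), |c e|)
      atTop (𝓝 0)) :
    ∀ᵐ J ∂(PP fun _ : (Fin (k + 1) → ℤ) × Fin (k + 1) => ν),
      ∃ σ, {ρ | GS aa bb Set.univ (fun e => c e * J e) ρ} = {σ, -σ} := by
  classical
  set μ : (Fin (k + 1) → ℤ) × Fin (k + 1) → Measure ℝ := fun e => ν.map (fun x => c e * x) with hμ
  have hmc : ∀ e, Measurable (fun x : ℝ => c e * x) := fun e => by fun_prop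
  haveI : ∀ e, IsProbabilityMeasure (μ e) := fun e =>
    Measure.isProbabilityMeasure_map (hmc e).aemeasurable
  have hmap : (PP fun _ : (Fin (k + 1) → ℤ) × Fin (k + 1) => ν).map (fun J e => c e * J e) = PP μ := by
    unfold PP
    exact Measure.infinitePi_map_pi (μ := fun _ => ν) (f := fun e x => c e * x) (fun e => hmc e)
  have hatμ : ∀ e x, μ e {x} = 0 := by
    intro e x
    simp only [hμ]
    rw [Measure.map_apply (hmc e) (measurableSet_singleton _)]
    refine measure_mono_null (t := {x / c e}) ?_ (hat _)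
    intro y hy
    rw [Set.mem_preimage, Set.mem_singleton_iff] at hy
    rw [Set.mem_singleton_iff, eq_div_iff (hc e)]
    linarith
  have hintμ : ∀ e, Integrable (fun x : ℝ => x) (μ e) := by
    intro e
    simp only [hμ]
    rw [integrable_map_measure (by fun_prop) (hmc e).aemeasurable]
    exact hint.const_mul _
  have hav : ∀ e, ∫ x, |x| ∂(μ e) = |c e| * ∫ x, |x| ∂ν := by
    intro e
    simp only [hμ]
    rw [integral_map (hmc e).aemeasurable (by fun_prop)]
    simp only [abs_mul]
    rw [integral_const_mul]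
  set C : ℕ → Finset ((Fin (k + 1) → ℤ) × Fin (k + 1)) := fun n =>
    (cut_finite (R := Set.univ) (horn_fib (k := k)) (cube k n)).toFinset with hC
  have hCc : ∀ n, (C n : Set _) = cut aa bb Set.univ (cube k n : Set (Fin (k + 1) → ℤ)) := by
    intro n
    simp [hC]
  have hsum : ∀ n, ∑ᶠ e ∈ cut aa bb Set.univ (cube k n : Set (Fin (k + 1) → ℤ)), |c e| =
      ∑ e ∈ C n, |c e| := by
    intro n
    rw [← hCc n]
    exact finsum_mem_coe_finset _ _
  have hpair := pair_ae (a := aa) (b := bb) (R := Set.univ) μ hatμ (horn_fib (k := k))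
    (Set.infinite_univ (α := Fin (k + 1) → ℤ)) (fun S _ h1 h2 => zd_conn S h1 h2)
    (B := fun n => cube k n) (C := C) (fun n => Set.subset_univ _) ?_ hCc ?_ ?_
  · rw [← hmap] at hpair
    exact ae_of_ae_map (measurable_pi_lambda _ fun e => (measurable_pi_apply e).const_mul _).aemeasurable hpair
  · intro x _
    filter_upwards [eventually_ge_atTop (∑ i, (x i).natAbs)] with n hn
    rw [mem_cube]
    intro i
    have h1 : (x i).natAbs ≤ ∑ i, (x i).natAbs :=
      Finset.single_le_sum (f := fun i => (x i).natAbs) (fun _ _ => Nat.zero_le _)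
        (Finset.mem_univ i)
    rw [Int.abs_eq_natAbs]
    exact_mod_cast h1.trans hn
  · have hlt : ∀ m n, m < n → Disjoint (C m) (C n) := by
      intro m n hmn
      rw [Finset.disjoint_left]
      intro e he he2
      have h1 : e ∈ cut aa bb Set.univ (cube k m : Set (Fin (k + 1) → ℤ)) := by
        rw [← hCc]; exact_mod_cast he
      have h2 : e ∈ cut aa bb Set.univ (cube k n : Set (Fin (k + 1) → ℤ)) := by
        rw [← hCc]; exact_mod_cast he2
      have h3 := cube_next e h1
      have h4 := cube_mono (k := k) (Nat.succ_le_of_lt hmn)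
      rcases h2 with h5 | h5
      · exact h5.2.2 (by exact_mod_cast h4 h3.2)
      · exact h5.2.2 (by exact_mod_cast h4 h3.1)
    intro m n hmn
    rcases lt_or_gt_of_ne hmn with h1 | h1
    · exact hlt m n h1
    · exact (hlt n m h1).symm
  · intro δ hδ
    by_contra hne
    have h1 : Tendsto (fun n => PP μ {J | wt (C n) J ≤ δ}) atTop (𝓝 0) := by
      rw [← Nat.cofinite_eq_atTop]
      exact ENNReal.tendsto_cofinite_zero_of_tsum_ne_top hne
    have h2 : ∀ᶠ n in atTop, PP μ {J | wt (C n) J ≤ δ} < 2⁻¹ :=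
      h1.eventually (gt_mem_nhds (by norm_num))
    have h3 : Tendsto (fun n : ℕ => ∑ e ∈ C n, ∫ x, |x| ∂(μ e)) atTop (𝓝 0) := by
      have h4 : (fun n : ℕ => ∑ e ∈ C n, ∫ x, |x| ∂(μ e)) = fun n =>
          (∑ᶠ e ∈ cut aa bb Set.univ (cube k n : Set (Fin (k + 1) → ℤ)), |c e|) *
            ∫ x, |x| ∂ν := by
        funext n
        rw [hsum n, Finset.sum_mul]
        exact Finset.sum_congr rfl fun e _ => hav e
      rw [h4]
      simpa using h.mul_const (∫ x, |x| ∂ν)
    have h5 : ∀ᶠ n in atTop, ∑ e ∈ C n, ∫ x, |x| ∂(μ e) < δ / 2 :=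
      h3.eventually (gt_mem_nhds (by positivity))
    obtain ⟨n, h6, h7⟩ := (h2.and h5).exists
    exact absurd (markov μ (C n) hintμ hδ h7.le) (not_le.2 h6)

end Pool.Agent.Q233.WC
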